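import Pool.Agent.Lib.MP_186ff7_lc.Defs

/-!
# The algorithms on lists, and the statements of the modules
-/

namespace Pool.Agent.Lib.MP_186ff7_lc

/-! ### Greedy chain covers (generic) -/

section greedy

variable {V : Type} [DecidableEq V]

/-- For every `x` in `R` the first chain in `C` whose head is below `x`, extended by `x`. -/
def extend (lt : V → V → Bool) (R : List V) (C : List (List V)) : List (List V) :=
  R.flatMap fun x => ((C.filter fun c => (c.take 1).any fun y => lt y x).take 1).map fun c => x :: c

/-- One round: longer chains, if there are any. -/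
def growStep (lt : V → V → Bool) (R : List V) (C : List (List V)) : List (List V) :=
  if (extend lt R C).isEmpty then C else extend lt R C

/-- A longest chain in `R`. -/
def longest (lt : V → V → Bool) (R : List V) : List V :=
  ((growStep lt R)^[R.length] (R.map fun x => [x])).headD []

/-- Remove a longest chain and count it. -/
def strip (lt : V → V → Bool) (s : List V × ℕ) : List V × ℕ :=
  if s.1.isEmpty then s else
    (s.1.filter fun x => !((longest lt s.1).any fun y => decide (y = x)), s.2 + 1)

/-- The number of chains that are removed until nothing is left. -/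
def greedy (lt : V → V → Bool) (Q : List V) : ℕ := ((strip lt)^[Q.length] (Q, 0)).2

end greedy

/-- MODULE GREEDY. The greedy algorithm covers `Q` with chains, and its number of chains is at most
`2 w (log |Q| + 1)` if all antichains have at most `w` elements. -/
def StGreedy : Prop := ∀ (V P : Type) [DecidableEq V] [PartialOrder P] (lt : V → V → Bool) (φ : V → P)
  (Q : List V), (∀ x ∈ Q, ∀ y ∈ Q, φ x = φ y → x = y) →
  (∀ x ∈ Q, ∀ y ∈ Q, (lt x y = true ↔ φ x < φ y)) →
  (∃ C : Fin (greedy lt Q) → Finset V, (∀ j, ∀ x ∈ C j, ∀ y ∈ C j, φ x ≤ φ y ∨ φ y ≤ φ x) ∧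
    ∀ x ∈ Q, ∃ j, x ∈ C j) ∧
  ∀ w : ℕ, (∀ A : Finset V, (∀ x ∈ A, x ∈ Q) → (∀ x ∈ A, ∀ y ∈ A, φ x ≤ φ y → x = y) →
    A.card ≤ w) → greedy lt Q ≤ 2 * w * (Nat.log 2 Q.length + 1)

/-! ### The lattice of stable marriages -/

section lattice

variable {n : ℕ} (rM rW : Fin n → Fin n → ℕ)

/-- Stable perfect matchings in terms of ranks: `rM a w` is the position of the woman `w` in the list
of the man `a`, and `rW w a` is the position of the man `a` in the list of the woman `w`. -/
def StablePerm (σ : Equiv.Perm (Fin n)) : Prop :=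
  ∀ a w, ¬ (rM a w < rM a (σ a) ∧ rW w a < rW w (σ.symm w))

open Classical in
/-- One round of necessary moves: if the man `a` is at the woman `w` and another man `b` at or beyond
`w` is preferred by `w`, then `a` moves to the next woman. -/
noncomputable def moveF (p : Fin n → ℕ) : Fin n → ℕ := fun a =>
  if ∃ b w, rM a w = p a ∧ rM b w ≤ p b ∧ rW w b < rW w a then p a + 1 else p a

/-- The result of `n * n` rounds if the man `a` starts at position `i` and all others at `0`. -/
noncomputable def leastF (a : Fin n) (i : ℕ) : Fin n → ℕ :=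
  (moveF rM rW)^[n * n] fun b => if b = a then i else 0

end lattice

/-- MODULE LATTICE. The number of stable matchings is bounded from above in terms of a chain cover and
from below in terms of an antichain of the set of the vectors `leastF a i` that describe matchings. -/
def StLattice : Prop := ∀ (n : ℕ) (rM rW : Fin n → Fin n → ℕ),
  (∀ a, Function.Injective (rM a)) → (∀ a w, rM a w < n) → (∀ w, Function.Injective (rW w)) →
  ∀ Q : Finset (Fin n → ℕ), (∀ q, q ∈ Q ↔ ∃ a, ∃ i < n, leastF rM rW a i = q ∧ ∀ b, q b < n) →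
  (∀ (k : ℕ) (C : Fin k → Finset (Fin n → ℕ)),
    (∀ j, ∀ x ∈ C j, ∀ y ∈ C j, x ≤ y ∨ y ≤ x) → (∀ q ∈ Q, ∃ j, q ∈ C j) →
    Nat.card {σ : Equiv.Perm (Fin n) // StablePerm rM rW σ} ≤ (Q.card + 1) ^ k) ∧
  ∀ A ⊆ Q, (∀ x ∈ A, ∀ y ∈ A, x ≤ y → x = y) →
    2 ^ A.card ≤ Nat.card {σ : Equiv.Perm (Fin n) // StablePerm rM rW σ} + 1

/-! ### The roommates instance of a graph -/

/-- A perfect list: first the agents in `head`, then all other agents except `self`. -/
def completeList (N self : ℕ) (head : List ℕ) : List ℕ :=
  head ++ (List.range N).filter fun x => !(decide (x = self)) && !(head.any fun y => decide (y = x))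

/-- The lists of the four agents `4 v`, `4 v + 1`, `4 v + 2`, `4 v + 3` of the vertex `v` whose
neighbours are listed in `nb`. -/
def roomBlock (N v : ℕ) (nb : List ℕ) : List (List ℕ) :=
  [completeList N (4 * v) ([4 * v + 2] ++ nb.map (fun u => 4 * u) ++ [4 * v + 3]),
   completeList N (4 * v + 1) [4 * v + 3, 4 * v + 2],
   completeList N (4 * v + 2) [4 * v + 1, 4 * v],
   completeList N (4 * v + 3) [4 * v, 4 * v + 1]]

/-- The lists of the roommates instance of the graph with the given lists of neighbours. -/
def roomLists (L : List (List ℕ)) : List (List ℕ) :=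
  (List.range L.length).flatMap fun v => roomBlock (4 * L.length) v (L.getD v [])

/-- MODULE GADGET (abstract form). Every vertex `v` has four agents `(v, 0), …, (v, 3)`; `rk x y` is
the position of `y` in the list of `x`. -/
def StGadget : Prop := ∀ (V : Type) [Fintype V] (G : SimpleGraph V)
  (rk : V × Fin 4 → V × Fin 4 → ℕ),
  (∀ v y, y ≠ (v, 2) → rk (v, 0) (v, 2) < rk (v, 0) y) →
  (∀ v u, G.Adj v u → rk (v, 0) (u, 0) < rk (v, 0) (v, 3)) →
  (∀ v y, y ≠ (v, 2) → y ≠ (v, 3) → (∀ u, G.Adj v u → y ≠ (u, 0)) →
    rk (v, 0) (v, 3) < rk (v, 0) y) →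
  (∀ v y, y ≠ (v, 3) → rk (v, 1) (v, 3) < rk (v, 1) y) →
  (∀ v y, y ≠ (v, 3) → y ≠ (v, 2) → rk (v, 1) (v, 2) < rk (v, 1) y) →
  (∀ v y, y ≠ (v, 1) → rk (v, 2) (v, 1) < rk (v, 2) y) →
  (∀ v y, y ≠ (v, 1) → y ≠ (v, 0) → rk (v, 2) (v, 0) < rk (v, 2) y) →
  (∀ v y, y ≠ (v, 0) → rk (v, 3) (v, 0) < rk (v, 3) y) →
  (∀ v y, y ≠ (v, 0) → y ≠ (v, 1) → rk (v, 3) (v, 1) < rk (v, 3) y) →
  Nat.card {μ : V × Fin 4 → V × Fin 4 // (∀ a, μ (μ a) = a) ∧
      ∀ a b, ¬ (rk a b < rk a (μ a) ∧ rk b a < rk b (μ b))} =
    Nat.card {S : Finset V // G.IsIndepSet S}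

/-- MODULE COUNT. The number of independent sets and the independence number. -/
def StCount : Prop := ∀ (V : Type) [Fintype V] (G : SimpleGraph V),
  2 ^ G.indepNum ≤ Nat.card {S : Finset V // G.IsIndepSet S} ∧
  Nat.card {S : Finset V // G.IsIndepSet S} ≤ (Fintype.card V + 1) ^ G.indepNum

/-! ### The algorithm for marriage instances, on lists -/

/-- The position of `x` in `l` (the length of `l` if `x` is not in `l`). -/
def pos (l : List ℕ) (x : ℕ) : ℕ :=
  ((List.range l.length).filter fun i => (l.take (i + 1)).all fun y => !(decide (y = x))).length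

/-- The man `a` at position `p a` has to move on. The list `L` contains the lists of the men, then
the lists of the women. -/
def mustMove (L : List (List ℕ)) (n : ℕ) (p : List ℕ) (a : ℕ) : Bool :=
  decide (p.getD a 0 < n) &&
    (List.range n).any fun b =>
      decide (pos (L.getD b []) ((L.getD a []).getD (p.getD a 0) 0) ≤ p.getD b 0) &&
      decide (pos (L.getD (n + (L.getD a []).getD (p.getD a 0) 0) []) b <
        pos (L.getD (n + (L.getD a []).getD (p.getD a 0) 0) []) a)

/-- One round of necessary moves, on lists. -/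
def moveL (L : List (List ℕ)) (n : ℕ) (p : List ℕ) : List ℕ :=
  (List.range n).map fun a => if mustMove L n p a then p.getD a 0 + 1 else p.getD a 0

/-- The result of `n * n` rounds if the man `a` starts at position `i` and all others at `0`. -/
def leastL (L : List (List ℕ)) (n a i : ℕ) : List ℕ :=
  (moveL L n)^[n * n] ((List.range n).map fun b => if b = a then i else 0)

/-- All vectors `leastL a i` that describe matchings. -/
def vecs (L : List (List ℕ)) (n : ℕ) : List (List ℕ) :=
  ((List.range n).flatMap fun a => (List.range n).map fun i => leastL L n a i).filter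
    fun p => p.all fun x => decide (x < n)

/-- The coordinatewise strict order. -/
def ltL (n : ℕ) (p q : List ℕ) : Bool :=
  ((List.range n).all fun a => decide (p.getD a 0 ≤ q.getD a 0)) &&
    (List.range n).any fun a => decide (p.getD a 0 < q.getD a 0)

/-- A number `c` with `m < 2 ^ c` and `2 ^ c ≤ 2 (m + 1)`. -/
def lg (m : ℕ) : ℕ :=
  ((fun s : ℕ × ℕ => if s.1 ≤ m then (s.1 + s.1, s.2 + 1) else s)^[m + 1] (1, 0)).2

/-- The estimate for the logarithm of the number of stable matchings of a marriage instance that is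
given by the lists of the men and of the women. -/
def estimate (L : List (List ℕ)) : ℕ :=
  greedy (ltL (L.getD 0 []).length) (vecs L (L.getD 0 []).length) *
    lg (vecs L (L.getD 0 []).length).length

end Pool.Agent.Lib.MP_186ff7_lc
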