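import Pool.Agent.Lib.MP_186ff7_lc.Alg

/-!
# The roommates instance of a graph
-/

namespace Pool.Agent.Lib.MP_186ff7_lc

open Function

/-! ### Lists of numbers and lists in `Fin n` -/

theorem idxOf_map_val {n : ℕ} (l : List (Fin n)) (b : Fin n) :
    (l.map Fin.val).idxOf b.val = l.idxOf b := by
  induction l with
  | nil => rfl
  | cons x l ih =>
    rw [List.map_cons]
    by_cases h : x = b
    · rw [h, List.idxOf_cons_self, List.idxOf_cons_self]
    · have h' : x.val ≠ b.val := fun e => h (Fin.ext e)
      rw [List.idxOf_cons_ne _ h, List.idxOf_cons_ne _ h', ih]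

/-- The roommates instance with the given lists. -/
def Roommates.ofLists (L : List (List ℕ)) (h : ∀ a < L.length, (L.getD a []).Nodup ∧
    ∀ b, b ∈ L.getD a [] ↔ b < L.length ∧ b ≠ a) : Roommates where
  n := L.length
  list a := (L.getD a []).pmap (fun b hb => (⟨b, hb⟩ : Fin L.length))
    fun b hb => ((h a a.2).2 b |>.1 hb).1
  nodup a := by
    refine List.Nodup.pmap ?_ (h a a.2).1
    intro b _ c _ e
    exact congrArg Fin.val e
  mem_iff a b := by
    rw [List.mem_pmap]
    constructor
    · rintro ⟨c, hc, rfl⟩ e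
      exact ((h a a.2).2 c |>.1 hc).2 (congrArg Fin.val e)
    · intro hb
      exact ⟨b.1, (h a a.2).2 b |>.2 ⟨b.2, fun e => hb (Fin.ext e)⟩, rfl⟩

theorem Roommates.map_val_ofLists (L : List (List ℕ)) (h : ∀ a < L.length, (L.getD a []).Nodup ∧
    ∀ b, b ∈ L.getD a [] ↔ b < L.length ∧ b ≠ a) (a : Fin L.length) :
    ((Roommates.ofLists L h).list a).map Fin.val = L.getD a [] := by
  unfold Roommates.ofLists
  simp only
  rw [List.map_pmap]
  simp

theorem Roommates.encode_ofLists (L : List (List ℕ)) (h : ∀ a < L.length, (L.getD a []).Nodup ∧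
    ∀ b, b ∈ L.getD a [] ↔ b < L.length ∧ b ≠ a) : (Roommates.ofLists L h).encode = word L := by
  unfold Roommates.encode
  congr 1
  refine List.ext_getElem (by simp [Roommates.ofLists]) ?_
  intro i h1 h2
  rw [List.getElem_ofFn]
  have := Roommates.map_val_ofLists L h ⟨i, h2⟩
  refine this.trans ?_
  rw [List.getD_eq_getElem?_getD, List.getElem?_eq_getElem h2, Option.getD_some]

theorem Roommates.idxOf_ofLists (L : List (List ℕ)) (h : ∀ a < L.length, (L.getD a []).Nodup ∧
    ∀ b, b ∈ L.getD a [] ↔ b < L.length ∧ b ≠ a) (a b : Fin L.length) :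
    ((Roommates.ofLists L h).list a).idxOf b = (L.getD a []).idxOf b.val := by
  rw [← Roommates.map_val_ofLists L h a]
  exact (idxOf_map_val _ _).symm

/-! ### Complete lists -/

theorem nodup_completeList {N self : ℕ} {head : List ℕ} (hn : head.Nodup) :
    (completeList N self head).Nodup := by
  unfold completeList
  refine List.Nodup.append hn (List.Nodup.filter _ List.nodup_range) ?_
  intro x hx hx'
  rw [List.mem_filter] at hx'
  have h := hx'.2
  simp only [Bool.and_eq_true, Bool.not_eq_true', List.any_eq_false, decide_eq_true_eq] at h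
  exact h.2 x hx rfl

theorem mem_completeList {N self : ℕ} {head : List ℕ} (hh : ∀ x ∈ head, x < N ∧ x ≠ self)
    (b : ℕ) : b ∈ completeList N self head ↔ b < N ∧ b ≠ self := by
  unfold completeList
  rw [List.mem_append, List.mem_filter, List.mem_range]
  constructor
  · rintro (h | ⟨h1, h2⟩)
    · exact hh b h
    · refine ⟨h1, ?_⟩
      simp only [Bool.and_eq_true, Bool.not_eq_true', decide_eq_false_iff_not] at h2
      exact h2.1
  · rintro ⟨h1, h2⟩
    by_cases hb : b ∈ head
    · exact Or.inl hb
    · refine Or.inr ⟨h1, ?_⟩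
      simp only [Bool.and_eq_true, Bool.not_eq_true', List.any_eq_false, decide_eq_true_eq,
        decide_eq_false_iff_not]
      exact ⟨h2, fun y hy e => hb (e ▸ hy)⟩

theorem idxOf_lt_of_prefix {P R : List ℕ} {x y : ℕ} (hx : x ∈ P) (hy : y ∉ P) :
    (P ++ R).idxOf x < (P ++ R).idxOf y := by
  rw [List.idxOf_append_of_mem hx, List.idxOf_append_of_notMem hy]
  have := List.idxOf_lt_length_of_mem hx
  omega

theorem idxOf_completeList_lt {N self : ℕ} {P R : List ℕ} {x y : ℕ} (hx : x ∈ P) (hy : y ∉ P) :
    (completeList N self (P ++ R)).idxOf x < (completeList N self (P ++ R)).idxOf y := by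
  unfold completeList
  rw [List.append_assoc]
  exact idxOf_lt_of_prefix hx hy

/-! ### The lists of the roommates instance -/

open Classical in
/-- The lists of neighbours. -/
noncomputable def Graph.lists (G : Graph) : List (List ℕ) :=
  List.ofFn fun v => ((List.finRange G.n).filter fun u => G.graph.Adj v u).map Fin.val

theorem Graph.encode_eq (G : Graph) : G.encode = word G.lists := rfl

theorem Graph.length_lists (G : Graph) : G.lists.length = G.n := by simp [Graph.lists]

open Classical in
theorem Graph.getD_lists (G : Graph) (v : Fin G.n) : G.lists.getD v [] =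
    ((List.finRange G.n).filter fun u => G.graph.Adj v u).map Fin.val := by
  unfold Graph.lists
  rw [List.getD_eq_getElem?_getD, List.getElem?_ofFn]
  simp

theorem Graph.mem_getD_lists (G : Graph) (v : Fin G.n) (u : ℕ) : u ∈ G.lists.getD v [] ↔
    ∃ h : u < G.n, G.graph.Adj v ⟨u, h⟩ := by
  classical
  rw [G.getD_lists, List.mem_map]
  constructor
  · rintro ⟨w, hw, rfl⟩
    rw [List.mem_filter] at hw
    exact ⟨w.2, by simpa using hw.2⟩
  · rintro ⟨h, hu⟩
    exact ⟨⟨u, h⟩, by simpa using hu, rfl⟩

theorem Graph.nodup_getD_lists (G : Graph) (v : Fin G.n) : (G.lists.getD v []).Nodup := by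
  classical
  rw [G.getD_lists]
  exact (List.Nodup.filter _ (List.nodup_finRange _)).map Fin.val_injective

theorem length_roomLists_aux (N : ℕ) (L : List (List ℕ)) (m : ℕ) :
    ((List.range m).flatMap fun v => roomBlock N v (L.getD v [])).length = 4 * m := by
  induction m with
  | zero => rfl
  | succ m ih =>
    rw [List.range_succ, List.flatMap_append, List.length_append, ih, List.flatMap_cons,
      List.flatMap_nil, List.append_nil]
    simp [roomBlock]
    omega

theorem length_roomLists (L : List (List ℕ)) : (roomLists L).length = 4 * L.length :=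
  length_roomLists_aux _ _ _

theorem getD_roomLists_aux (N : ℕ) (L : List (List ℕ)) (m v : ℕ) (hv : v < m) (j : ℕ)
    (hj : j < 4) : ((List.range m).flatMap fun v => roomBlock N v (L.getD v [])).getD
      (4 * v + j) [] = (roomBlock N v (L.getD v [])).getD j [] := by
  induction m with
  | zero => omega
  | succ m ih =>
    rw [List.range_succ, List.flatMap_append, List.flatMap_cons, List.flatMap_nil,
      List.append_nil]
    by_cases h : v < m
    · rw [List.getD_append _ _ _ _ (by rw [length_roomLists_aux]; omega), ih h]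
    · have : v = m := by omega
      subst this
      rw [List.getD_append_right _ _ _ _ (by rw [length_roomLists_aux]; omega),
        length_roomLists_aux]
      congr 1
      omega

theorem getD_roomLists (L : List (List ℕ)) {v j : ℕ} (hv : v < L.length) (hj : j < 4) :
    (roomLists L).getD (4 * v + j) [] =
      (roomBlock (4 * L.length) v (L.getD v [])).getD j [] :=
  getD_roomLists_aux _ _ _ _ hv _ hj

section

variable (G : Graph)

/-- The lists of the instance of `G`. -/
noncomputable def Graph.rooms : List (List ℕ) := roomLists G.lists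

theorem Graph.length_rooms : G.rooms.length = 4 * G.n := by
  rw [Graph.rooms, length_roomLists, G.length_lists]

/-- The head of the list of the agent `4 v`. -/
noncomputable def Graph.head (v : Fin G.n) : List ℕ :=
  [4 * v.val + 2] ++ (G.lists.getD v []).map (fun u => 4 * u) ++ [4 * v.val + 3]

theorem Graph.rooms_zero (v : Fin G.n) : G.rooms.getD (4 * v) [] =
    completeList (4 * G.n) (4 * v) (G.head v) := by
  have := getD_roomLists G.lists (v := v) (j := 0) (by rw [G.length_lists]; exact v.2) (by omega)
  rw [G.length_lists] at this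
  exact this

theorem Graph.rooms_one (v : Fin G.n) : G.rooms.getD (4 * v + 1) [] =
    completeList (4 * G.n) (4 * v + 1) [4 * v + 3, 4 * v + 2] := by
  have := getD_roomLists G.lists (v := v) (j := 1) (by rw [G.length_lists]; exact v.2) (by omega)
  rw [G.length_lists] at this
  exact this

theorem Graph.rooms_two (v : Fin G.n) : G.rooms.getD (4 * v + 2) [] =
    completeList (4 * G.n) (4 * v + 2) [4 * v + 1, 4 * v] := by
  have := getD_roomLists G.lists (v := v) (j := 2) (by rw [G.length_lists]; exact v.2) (by omega)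
  rw [G.length_lists] at this
  exact this

theorem Graph.rooms_three (v : Fin G.n) : G.rooms.getD (4 * v + 3) [] =
    completeList (4 * G.n) (4 * v + 3) [4 * v, 4 * v + 1] := by
  have := getD_roomLists G.lists (v := v) (j := 3) (by rw [G.length_lists]; exact v.2) (by omega)
  rw [G.length_lists] at this
  exact this

theorem Graph.nodup_head (v : Fin G.n) : (G.head v).Nodup := by
  unfold Graph.head
  have h1 : ((G.lists.getD v []).map (fun u => 4 * u)).Nodup :=
    (G.nodup_getD_lists v).map fun a b (h : 4 * a = 4 * b) => by omega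
  refine List.Nodup.append (List.Nodup.append (by simp) h1 ?_) (by simp) ?_
  · intro x hx hx'
    rw [List.mem_singleton] at hx
    rw [List.mem_map] at hx'
    obtain ⟨u, -, hu⟩ := hx'
    omega
  · intro x hx hx'
    rw [List.mem_singleton] at hx'
    rw [List.mem_append, List.mem_singleton, List.mem_map] at hx
    rcases hx with hx | ⟨u, -, hu⟩ <;> omega

theorem Graph.mem_head (v : Fin G.n) (x : ℕ) (hx : x ∈ G.head v) :
    x < 4 * G.n ∧ x ≠ 4 * v := by
  unfold Graph.head at hx
  rw [List.mem_append, List.mem_append, List.mem_singleton, List.mem_singleton,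
    List.mem_map] at hx
  have hv := v.2
  rcases hx with (hx | ⟨u, hu, rfl⟩) | hx
  · omega
  · rw [G.mem_getD_lists] at hu
    obtain ⟨h1, h2⟩ := hu
    have : u ≠ v := fun e => by
      subst e
      exact G.graph.loopless.irrefl _ h2
    omega
  · omega

theorem Graph.rooms_valid : ∀ a < G.rooms.length, (G.rooms.getD a []).Nodup ∧
    ∀ b, b ∈ G.rooms.getD a [] ↔ b < G.rooms.length ∧ b ≠ a := by
  intro a ha
  rw [G.length_rooms] at ha ⊢
  obtain ⟨v, j, hv, hj, rfl⟩ : ∃ v j, v < G.n ∧ j < 4 ∧ a = 4 * v + j :=
    ⟨a / 4, a % 4, by omega, by omega, by omega⟩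
  have h0 := G.rooms_zero ⟨v, hv⟩
  have h1 := G.rooms_one ⟨v, hv⟩
  have h2 := G.rooms_two ⟨v, hv⟩
  have h3 := G.rooms_three ⟨v, hv⟩
  simp only at h0 h1 h2 h3
  have hj' : j = 0 ∨ j = 1 ∨ j = 2 ∨ j = 3 := by omega
  rcases hj' with rfl | rfl | rfl | rfl
  · rw [Nat.add_zero, h0]
    exact ⟨nodup_completeList (G.nodup_head _), mem_completeList (G.mem_head _)⟩
  · rw [h1]
    refine ⟨nodup_completeList (by simp), mem_completeList fun x hx => ?_⟩
    simp only [List.mem_cons, List.not_mem_nil, or_false] at hx
    rcases hx with rfl | rfl <;> omega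
  · rw [h2]
    refine ⟨nodup_completeList (by simp), mem_completeList fun x hx => ?_⟩
    simp only [List.mem_cons, List.not_mem_nil, or_false] at hx
    rcases hx with rfl | rfl <;> omega
  · rw [h3]
    refine ⟨nodup_completeList (by simp), mem_completeList fun x hx => ?_⟩
    simp only [List.mem_cons, List.not_mem_nil, or_false] at hx
    rcases hx with rfl | rfl <;> omega

/-- The roommates instance of the graph `G`. -/
noncomputable def Graph.toRoommates : Roommates := Roommates.ofLists G.rooms G.rooms_valid

theorem Graph.encode_toRoommates : G.toRoommates.encode = word (roomLists G.lists) :=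
  Roommates.encode_ofLists _ _

/-- The agents of the instance. -/
noncomputable def Graph.agent : Fin G.n × Fin 4 ≃ Fin G.toRoommates.n where
  toFun x := ⟨4 * x.1.val + x.2.val, by
    have h : G.toRoommates.n = 4 * G.n := G.length_rooms
    have h1 := x.1.2
    have h2 := x.2.2
    omega⟩
  invFun a := (⟨a.val / 4, by
    have h : G.toRoommates.n = 4 * G.n := G.length_rooms
    have h1 := a.2
    omega⟩, ⟨a.val % 4, by omega⟩)
  left_inv x := by
    obtain ⟨⟨v, hv⟩, ⟨j, hj⟩⟩ := x
    simp only [Prod.mk.injEq, Fin.mk.injEq]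
    omega
  right_inv a := by
    apply Fin.ext
    simp only
    omega

/-- The positions in the lists. -/
noncomputable def Graph.rank (x y : Fin G.n × Fin 4) : ℕ :=
  (G.rooms.getD (4 * x.1.val + x.2.val) []).idxOf (4 * y.1.val + y.2.val)

theorem Graph.idxOf_eq (x y : Fin G.n × Fin 4) :
    (G.toRoommates.list (G.agent x)).idxOf (G.agent y) = G.rank x y :=
  Roommates.idxOf_ofLists _ _ _ _

theorem Graph.card_stable : Nat.card G.toRoommates.Stable =
    Nat.card {μ : Fin G.n × Fin 4 → Fin G.n × Fin 4 // (∀ a, μ (μ a) = a) ∧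
      ∀ a b, ¬ (G.rank a b < G.rank a (μ a) ∧ G.rank b a < G.rank b (μ b))} := by
  refine Nat.card_congr ((Equiv.arrowCongr G.agent G.agent).subtypeEquiv fun μ => ?_).symm
  constructor
  · rintro ⟨h1, h2⟩
    constructor
    · intro a
      simp [Equiv.arrowCongr, h1]
    · intro a b
      obtain ⟨x, rfl⟩ := G.agent.surjective a
      obtain ⟨y, rfl⟩ := G.agent.surjective b
      unfold Roommates.Prefers
      simp only [Equiv.arrowCongr, Equiv.coe_fn_mk, Function.comp_apply,
        Equiv.symm_apply_apply, G.idxOf_eq]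
      exact h2 x y
  · rintro ⟨h1, h2⟩
    constructor
    · intro x
      have := h1 (G.agent x)
      simpa [Equiv.arrowCongr] using this
    · intro x y
      have := h2 (G.agent x) (G.agent y)
      unfold Roommates.Prefers at this
      simpa only [Equiv.arrowCongr, Equiv.coe_fn_mk, Function.comp_apply,
        Equiv.symm_apply_apply, G.idxOf_eq] using this

theorem Graph.code_inj {v u : Fin G.n} {i j : Fin 4} :
    4 * v.val + i.val = 4 * u.val + j.val ↔ (v, i) = (u, j) := by
  constructor
  · intro h
    have h1 := i.2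
    have h2 := j.2
    rw [Prod.mk.injEq]
    exact ⟨Fin.ext (by omega), Fin.ext (by omega)⟩
  · intro h
    rw [Prod.mk.injEq] at h
    rw [h.1, h.2]

/-- **The stable matchings of the instance of `G` are the independent sets of `G`.** -/
theorem Graph.card_stable_eq (hG : StGadget) : Nat.card G.toRoommates.Stable =
    Nat.card {S : Finset (Fin G.n) // G.graph.IsIndepSet S} := by
  rw [G.card_stable]
  have code : ∀ (y : Fin G.n × Fin 4) (u : Fin G.n) (j : Fin 4), y ≠ (u, j) →
      4 * y.1.val + y.2.val ≠ 4 * u.val + j.val := by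
    intro y u j h e
    exact h (G.code_inj.1 e)
  refine hG (Fin G.n) G.graph G.rank ?_ ?_ ?_ ?_ ?_ ?_ ?_ ?_ ?_
  · intro v y hy
    have h := code y v 2 hy
    unfold Graph.rank
    have h0 := G.rooms_zero v
    simp only [Fin.isValue, Fin.val_zero, Nat.add_zero, h0, Fin.val_two] at h ⊢
    unfold Graph.head
    rw [List.append_assoc]
    exact idxOf_completeList_lt (P := [4 * v.val + 2]) (by simp) (by simpa using h)
  · intro v u hu
    unfold Graph.rank
    have h0 := G.rooms_zero v
    simp only [Fin.isValue, Fin.val_zero, Nat.add_zero, h0]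
    refine idxOf_completeList_lt (P := [4 * v.val + 2] ++ (G.lists.getD v []).map
      (fun u => 4 * u)) (R := [4 * v.val + 3]) ?_ ?_
    · rw [List.mem_append, List.mem_map]
      exact Or.inr ⟨u, (G.mem_getD_lists v u).2 ⟨u.2, hu⟩, rfl⟩
    · rw [List.mem_append, List.mem_map, List.mem_singleton]
      rintro (h | ⟨w, -, hw⟩)
      · have : ((3 : Fin 4) : ℕ) = 3 := rfl
        omega
      · have : ((3 : Fin 4) : ℕ) = 3 := rfl
        omega
  · intro v y h2 h3 hn
    have e2 := code y v 2 h2
    have e3 := code y v 3 h3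
    unfold Graph.rank
    have h0 := G.rooms_zero v
    simp only [Fin.isValue, Fin.val_zero, Nat.add_zero, h0]
    have := idxOf_completeList_lt (N := 4 * G.n) (self := 4 * v.val) (P := G.head v) (R := [])
      (x := 4 * v.val + 3) (y := 4 * y.1.val + y.2.val) (by simp [Graph.head]) ?_
    · rw [List.append_nil] at this
      exact this
    · unfold Graph.head
      rw [List.mem_append, List.mem_append, List.mem_singleton, List.mem_singleton, List.mem_map]
      rintro ((h | ⟨w, hw, hw'⟩) | h)
      · exact e2 h
      · rw [G.mem_getD_lists] at hw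
        obtain ⟨hw1, hw2⟩ := hw
        refine hn ⟨w, hw1⟩ hw2 ?_
        have e : 4 * y.1.val + y.2.val = 4 * (⟨w, hw1⟩ : Fin G.n).val + ((0 : Fin 4) : ℕ) := by
          simpa using hw'.symm
        have := G.code_inj.1 e
        rw [← this]
      · exact e3 h
  · intro v y hy
    have h := code y v 3 hy
    unfold Graph.rank
    have h0 := G.rooms_one v
    have e1 : ((1 : Fin 4) : ℕ) = 1 := rfl
    have e3 : ((3 : Fin 4) : ℕ) = 3 := rfl
    simp only [e1, e3, h0] at h ⊢
    exact idxOf_completeList_lt (P := [4 * v.val + 3]) (R := [4 * v.val + 2]) (by simp)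
      (by simpa using h)
  · intro v y h3 h2
    have h3 := code y v 3 h3
    have h2 := code y v 2 h2
    unfold Graph.rank
    have h0 := G.rooms_one v
    have e1 : ((1 : Fin 4) : ℕ) = 1 := rfl
    have e2 : ((2 : Fin 4) : ℕ) = 2 := rfl
    have e3 : ((3 : Fin 4) : ℕ) = 3 := rfl
    simp only [e1, e2, e3, h0] at h2 h3 ⊢
    have := idxOf_completeList_lt (N := 4 * G.n) (self := 4 * v.val + 1)
      (P := [4 * v.val + 3, 4 * v.val + 2]) (R := []) (x := 4 * v.val + 2)
      (y := 4 * y.1.val + y.2.val) (by simp) (by simp [h2, h3])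
    rw [List.append_nil] at this
    exact this
  · intro v y hy
    have h := code y v 1 hy
    unfold Graph.rank
    have h0 := G.rooms_two v
    have e1 : ((1 : Fin 4) : ℕ) = 1 := rfl
    have e2 : ((2 : Fin 4) : ℕ) = 2 := rfl
    simp only [e1, e2, h0] at h ⊢
    exact idxOf_completeList_lt (P := [4 * v.val + 1]) (R := [4 * v.val]) (by simp)
      (by simpa using h)
  · intro v y h1 h0'
    have h1 := code y v 1 h1
    have h2 := code y v 0 h0'
    unfold Graph.rank
    have h0 := G.rooms_two v
    have e1 : ((1 : Fin 4) : ℕ) = 1 := rfl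
    have e2 : ((2 : Fin 4) : ℕ) = 2 := rfl
    have e0 : ((0 : Fin 4) : ℕ) = 0 := rfl
    simp only [e0, e1, e2, h0, Nat.add_zero] at h1 h2 ⊢
    have := idxOf_completeList_lt (N := 4 * G.n) (self := 4 * v.val + 2)
      (P := [4 * v.val + 1, 4 * v.val]) (R := []) (x := 4 * v.val)
      (y := 4 * y.1.val + y.2.val) (by simp) (by simp [h1, h2])
    rw [List.append_nil] at this
    exact this
  · intro v y hy
    have h := code y v 0 hy
    unfold Graph.rank
    have h0 := G.rooms_three v
    have e0 : ((0 : Fin 4) : ℕ) = 0 := rfl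
    have e3 : ((3 : Fin 4) : ℕ) = 3 := rfl
    simp only [e0, e3, h0, Nat.add_zero] at h ⊢
    exact idxOf_completeList_lt (P := [4 * v.val]) (R := [4 * v.val + 1]) (by simp)
      (by simpa using h)
  · intro v y h0' h1
    have h1 := code y v 1 h1
    have h2 := code y v 0 h0'
    unfold Graph.rank
    have h0 := G.rooms_three v
    have e1 : ((1 : Fin 4) : ℕ) = 1 := rfl
    have e3 : ((3 : Fin 4) : ℕ) = 3 := rfl
    have e0 : ((0 : Fin 4) : ℕ) = 0 := rfl
    simp only [e0, e1, e3, h0, Nat.add_zero] at h1 h2 ⊢
    have := idxOf_completeList_lt (N := 4 * G.n) (self := 4 * v.val + 3)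
      (P := [4 * v.val, 4 * v.val + 1]) (R := []) (x := 4 * v.val + 1)
      (y := 4 * y.1.val + y.2.val) (by simp) (by simp [h1, h2])
    rw [List.append_nil] at this
    exact this

theorem Graph.solvable (hG : StGadget) : G.toRoommates.Solvable := by
  have h := G.card_stable_eq hG
  have h1 : Nat.card {S : Finset (Fin G.n) // G.graph.IsIndepSet S} ≠ 0 := by
    have : Nonempty {S : Finset (Fin G.n) // G.graph.IsIndepSet S} := ⟨∅, by simp⟩
    exact Nat.card_pos.ne'
  rw [← h] at h1
  exact (Nat.card_ne_zero.1 h1).1

end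

end Pool.Agent.Lib.MP_186ff7_lc
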