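import Pool.Agent.Lib.MP_186ff7_lc.Rooms

/-!
# Marriage instances: from the lists to the ranks
-/

namespace Pool.Agent.Lib.MP_186ff7_lc

open Function

/-! ### Positions -/

theorem pos_cons (y : ℕ) (t : List ℕ) (x : ℕ) :
    pos (y :: t) x = if y = x then 0 else pos t x + 1 := by
  unfold pos
  rw [List.length_cons, List.range_succ_eq_map, List.filter_cons, List.filter_map]
  split_ifs with h1 h2 h2
  · subst h2
    simp at h1
  · rw [List.length_cons, List.length_map]
    congr 2
    refine List.filter_congr fun i _ => ?_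
    simp [h2]
  · subst h2
    rw [List.length_map, List.length_eq_zero_iff, List.filter_eq_nil_iff]
    intro i _
    simp
  · simp [h2] at h1

theorem pos_eq (l : List ℕ) (x : ℕ) : pos l x = l.idxOf x := by
  induction l with
  | nil => rfl
  | cons y t ih =>
    rw [pos_cons, ih]
    split_ifs with h
    · rw [h, List.idxOf_cons_self]
    · rw [List.idxOf_cons_ne _ h]

/-! ### The lists -/

namespace Marriage

variable (J : Marriage)

/-- The lists of the instance. -/
def lists : List (List ℕ) := (List.ofFn fun a => (J.men a).map Fin.val) ++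
  List.ofFn fun w => (J.women w).map Fin.val

theorem encode_eq : J.encode = word J.lists := rfl

theorem getD_men (a : Fin J.n) : J.lists.getD a [] = (J.men a).map Fin.val := by
  unfold lists
  rw [List.getD_append _ _ _ _ (by simp), List.getD_eq_getElem?_getD, List.getElem?_ofFn]
  simp

theorem getD_women (w : Fin J.n) : J.lists.getD (J.n + w) [] = (J.women w).map Fin.val := by
  unfold lists
  rw [List.getD_append_right _ _ _ _ (by simp), List.getD_eq_getElem?_getD, List.length_ofFn,
    Nat.add_sub_cancel_left, List.getElem?_ofFn]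
  simp

/-- The ranks of the women for the men. -/
def rM (a w : Fin J.n) : ℕ := (J.men a).idxOf w

/-- The ranks of the men for the women. -/
def rW (w a : Fin J.n) : ℕ := (J.women w).idxOf a

theorem length_men (a : Fin J.n) : (J.men a).length = J.n := by
  have h1 : (J.men a).toFinset = Finset.univ := by
    ext w
    simp [J.men_mem a w]
  have h2 := List.toFinset_card_of_nodup (J.men_nodup a)
  rw [h1, Finset.card_univ, Fintype.card_fin] at h2
  exact h2.symm

theorem rM_injective (a : Fin J.n) : Injective (J.rM a) := by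
  intro w w' h
  exact (List.idxOf_inj (J.men_mem a w)).1 h

theorem rW_injective (w : Fin J.n) : Injective (J.rW w) := by
  intro a a' h
  exact (List.idxOf_inj (J.women_mem w a)).1 h

theorem rM_lt (a w : Fin J.n) : J.rM a w < J.n := by
  have := List.idxOf_lt_length_of_mem (J.men_mem a w)
  rwa [J.length_men] at this

/-- The woman at a position. -/
theorem exists_rM (a : Fin J.n) {i : ℕ} (hi : i < J.n) : ∃ w, J.rM a w = i ∧
    ((J.men a).map Fin.val).getD i 0 = w.val := by
  have h1 : i < (J.men a).length := by rw [J.length_men]; exact hi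
  refine ⟨(J.men a)[i], ?_, ?_⟩
  · exact (J.men_nodup a).idxOf_getElem _ _
  · rw [List.getD_eq_getElem?_getD, List.getElem?_map, List.getElem?_eq_getElem h1]
    simp

theorem getD_rM (a w : Fin J.n) : ((J.men a).map Fin.val).getD (J.rM a w) 0 = w.val := by
  obtain ⟨w', h1, h2⟩ := J.exists_rM a (J.rM_lt a w)
  rw [h2, J.rM_injective a h1]

theorem pos_men (a w : Fin J.n) : pos (J.lists.getD a []) w = J.rM a w := by
  rw [J.getD_men, pos_eq]
  exact idxOf_map_val _ _

theorem pos_women (w a : Fin J.n) : pos (J.lists.getD (J.n + w) []) a = J.rW w a := by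
  rw [J.getD_women, pos_eq]
  exact idxOf_map_val _ _

/-! ### Perfect matchings -/

/-- A stable matching is perfect. -/
theorem isSome_of_isStable {ν : Fin J.n → Option (Fin J.n)} (h : J.IsStable ν) (a : Fin J.n) :
    (ν a).isSome := by
  classical
  by_contra ha
  rw [Bool.not_eq_true, Option.isSome_eq_false_iff, Option.isNone_iff_eq_none] at ha
  -- some woman is single
  obtain ⟨w, hw⟩ : ∃ w, ∀ a', ν a' ≠ some w := by
    by_contra hc
    push Not at hc
    choose f hf using hc
    have hinj : Injective f := by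
      intro w w' e
      have h1 := hf w
      rw [e, hf w'] at h1
      exact (Option.some.inj h1).symm
    have hsurj := Finite.injective_iff_surjective.1 hinj
    obtain ⟨w, rfl⟩ := hsurj a
    rw [hf w] at ha
    exact absurd ha (by simp)
  refine h.noBlock a w ⟨fun w' hw' => ?_, fun a' ha' => absurd ha' (hw a')⟩
  rw [ha] at hw'
  exact absurd hw' (by simp)

/-- Stable matchings and stable permutations. -/
theorem isStable_iff (σ : Equiv.Perm (Fin J.n)) :
    J.IsStable (fun a => some (σ a)) ↔ StablePerm J.rM J.rW σ := by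
  constructor
  · rintro ⟨-, h2⟩ a w ⟨h3, h4⟩
    refine h2 a w ⟨fun w' hw' => ?_, fun a' ha' => ?_⟩
    · rw [Option.some_inj] at hw'
      rw [← hw']
      exact h3
    · rw [Option.some_inj] at ha'
      have : σ.symm w = a' := by rw [← ha', Equiv.symm_apply_apply]
      rw [← this]
      exact h4
  · intro h
    refine ⟨fun a b w ha hb => ?_, fun a w hh => ?_⟩
    · rw [Option.some_inj] at ha hb
      exact σ.injective (ha.trans hb.symm)
    · exact h a w ⟨hh.1 _ rfl, hh.2 _ (by rw [Equiv.apply_symm_apply])⟩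

theorem card_stable : Nat.card J.Stable =
    Nat.card {σ : Equiv.Perm (Fin J.n) // StablePerm J.rM J.rW σ} := by
  classical
  symm
  refine Nat.card_congr (Equiv.ofBijective (fun σ => (⟨fun a => some (σ.1 a),
    (J.isStable_iff σ.1).2 σ.2⟩ : J.Stable)) ⟨?_, ?_⟩)
  · intro σ τ h
    apply Subtype.ext
    apply Equiv.ext
    intro a
    have := congrFun (congrArg Subtype.val h) a
    exact Option.some_inj.1 this
  · rintro ⟨ν, hν⟩
    have hs := J.isSome_of_isStable hν
    let g : Fin J.n → Fin J.n := fun a => (ν a).get (hs a)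
    have hg : ∀ a, ν a = some (g a) := fun a => (Option.some_get _).symm
    have hinj : Injective g := by
      intro a b e
      refine hν.inj a b (g a) (hg a) ?_
      rw [hg b, e]
    let σ : Equiv.Perm (Fin J.n) := Equiv.ofBijective g ⟨hinj, Finite.injective_iff_surjective.1 hinj⟩
    have hσ : (fun a => some (σ a)) = ν := by
      funext a
      rw [hg a]
      rfl
    refine ⟨⟨σ, (J.isStable_iff σ).1 (by rw [hσ]; exact hν)⟩, ?_⟩
    exact Subtype.ext hσ

/-! ### The algorithm -/

theorem mustMove_iff (p : Fin J.n → ℕ) (a : Fin J.n) :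
    mustMove J.lists J.n (List.ofFn p) a = true ↔
      ∃ b w, J.rM a w = p a ∧ J.rM b w ≤ p b ∧ J.rW w b < J.rW w a := by
  have hp : ∀ b : Fin J.n, (List.ofFn p).getD b 0 = p b := by
    intro b
    rw [List.getD_eq_getElem?_getD, List.getElem?_ofFn]
    simp
  unfold mustMove
  rw [hp a, Bool.and_eq_true, decide_eq_true_eq, List.any_eq_true]
  constructor
  · rintro ⟨h1, b, hb, h2⟩
    obtain ⟨w, hw1, hw2⟩ := J.exists_rM a h1
    rw [List.mem_range] at hb
    rw [Bool.and_eq_true, decide_eq_true_eq, decide_eq_true_eq, J.getD_men a, hw2] at h2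
    have h3 := J.pos_men ⟨b, hb⟩ w
    have h4 := J.pos_women w ⟨b, hb⟩
    have h5 := J.pos_women w a
    have h6 := hp ⟨b, hb⟩
    simp only at h3 h4 h5 h6
    rw [h3, h4, h5, h6] at h2
    exact ⟨⟨b, hb⟩, w, hw1, h2.1, h2.2⟩
  · rintro ⟨b, w, hw, h2, h3⟩
    have h1 : p a < J.n := by rw [← hw]; exact J.rM_lt a w
    refine ⟨h1, b.1, List.mem_range.2 b.2, ?_⟩
    rw [Bool.and_eq_true, decide_eq_true_eq, decide_eq_true_eq, J.getD_men a, ← hw,
      J.getD_rM a w, J.pos_men b w, J.pos_women w b, J.pos_women w a, hp b]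
    exact ⟨h2, h3⟩

theorem moveL_ofFn (p : Fin J.n → ℕ) :
    moveL J.lists J.n (List.ofFn p) = List.ofFn (moveF J.rM J.rW p) := by
  have hp : ∀ b : Fin J.n, (List.ofFn p).getD b 0 = p b := by
    intro b
    rw [List.getD_eq_getElem?_getD, List.getElem?_ofFn]
    simp
  unfold moveL
  refine List.ext_getElem (by simp) ?_
  intro i h1 h2
  have hi : i < J.n := by simpa using h2
  rw [List.getElem_map, List.getElem_range, List.getElem_ofFn]
  unfold moveF
  have h3 := J.mustMove_iff p ⟨i, hi⟩
  have h4 := hp ⟨i, hi⟩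
  simp only at h3 h4
  rw [h4]
  by_cases h : mustMove J.lists J.n (List.ofFn p) i = true
  · rw [if_pos h, if_pos (h3.1 h)]
  · rw [if_neg h, if_neg fun h' => h (h3.2 h')]

theorem leastL_ofFn (a : Fin J.n) (i : ℕ) :
    leastL J.lists J.n a i = List.ofFn (leastF J.rM J.rW a i) := by
  have key : ∀ (k : ℕ) (p : Fin J.n → ℕ), (moveL J.lists J.n)^[k] (List.ofFn p) =
      List.ofFn ((moveF J.rM J.rW)^[k] p) := by
    intro k
    induction k with
    | zero => intro p; rfl
    | succ k ih =>
      intro p
      rw [iterate_succ_apply, J.moveL_ofFn, ih, iterate_succ_apply]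
  unfold leastL leastF
  rw [← key]
  congr 1
  refine List.ext_getElem (by simp) ?_
  intro j h1 h2
  have hj : j < J.n := by simpa using h2
  rw [List.getElem_map, List.getElem_range, List.getElem_ofFn]
  by_cases h : j = a.val
  · rw [if_pos h, if_pos (Fin.ext h)]
  · rw [if_neg h, if_neg fun e => h (congrArg Fin.val e)]

theorem mem_vecs (q : List ℕ) : q ∈ vecs J.lists J.n ↔
    ∃ a, ∃ i < J.n, List.ofFn (leastF J.rM J.rW a i) = q ∧
      ∀ b, leastF J.rM J.rW a i b < J.n := by
  unfold vecs
  rw [List.mem_filter, List.mem_flatMap]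
  constructor
  · rintro ⟨⟨a, ha, h1⟩, h2⟩
    rw [List.mem_range] at ha
    rw [List.mem_map] at h1
    obtain ⟨i, hi, rfl⟩ := h1
    rw [List.mem_range] at hi
    have h3 := J.leastL_ofFn ⟨a, ha⟩ i
    simp only at h3
    refine ⟨⟨a, ha⟩, i, hi, h3.symm, fun b => ?_⟩
    rw [h3, List.all_eq_true] at h2
    have := h2 (leastF J.rM J.rW ⟨a, ha⟩ i b) (by rw [List.mem_ofFn]; exact ⟨b, rfl⟩)
    simpa using this
  · rintro ⟨a, i, hi, rfl, h⟩
    refine ⟨⟨a.1, List.mem_range.2 a.2, ?_⟩, ?_⟩
    · rw [List.mem_map]
      exact ⟨i, List.mem_range.2 hi, J.leastL_ofFn a i⟩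
    · rw [List.all_eq_true]
      intro x hx
      rw [List.mem_ofFn] at hx
      obtain ⟨b, rfl⟩ := hx
      simpa using h b

theorem length_vecs_le : (vecs J.lists J.n).length ≤ J.n * J.n := by
  unfold vecs
  refine (List.length_filter_le _ _).trans ?_
  rw [List.length_flatMap]
  simp

theorem length_head : (J.lists.getD 0 []).length = J.n := by
  rcases Nat.eq_zero_or_pos J.n with h | h
  · have : J.lists = [] := by
      unfold lists
      have h1 : (List.ofFn fun a => (J.men a).map Fin.val) = [] :=
        List.eq_nil_of_length_eq_zero (by simp [h])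
      have h2 : (List.ofFn fun a => (J.women a).map Fin.val) = [] :=
        List.eq_nil_of_length_eq_zero (by simp [h])
      rw [h1, h2]
      rfl
    rw [this, h]
    rfl
  · have h1 := J.getD_men ⟨0, h⟩
    simp only at h1
    rw [h1, List.length_map, J.length_men]

/-- The list of vectors as functions. -/
def toFn (n : ℕ) (p : List ℕ) : Fin n → ℕ := fun a => p.getD a 0

theorem toFn_ofFn {n : ℕ} (q : Fin n → ℕ) : toFn n (List.ofFn q) = q := by
  funext b
  unfold toFn
  rw [List.getD_eq_getElem?_getD, List.getElem?_ofFn]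
  simp

theorem ltL_iff (n : ℕ) (p q : List ℕ) : ltL n p q = true ↔ toFn n p < toFn n q := by
  unfold ltL
  rw [Bool.and_eq_true, List.all_eq_true, List.any_eq_true, Pi.lt_def, Pi.le_def]
  refine and_congr ?_ ?_
  · constructor
    · intro h a
      have := h a.1 (List.mem_range.2 a.2)
      rwa [decide_eq_true_eq] at this
    · intro h a ha
      rw [decide_eq_true_eq]
      exact h ⟨a, List.mem_range.1 ha⟩
  · constructor
    · rintro ⟨a, ha, h⟩
      rw [decide_eq_true_eq] at h
      exact ⟨⟨a, List.mem_range.1 ha⟩, h⟩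
    · rintro ⟨a, h⟩
      exact ⟨a.1, List.mem_range.2 a.2, by rw [decide_eq_true_eq]; exact h⟩

end Marriage

end Pool.Agent.Lib.MP_186ff7_lc
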