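import Pool.Agent.Lib.MP_186ff7_lc.Alg
import Pool.Agent.Lib.PTime.Eq
import Pool.Agent.Lib.PTime.TM

/-!
# The algorithms run in polynomial time (without the greedy part)
-/

namespace Pool.Agent.Lib.MP_186ff7_lc

open Function Pool.Agent.Lib.PT

/-! ### Words -/

/-- A number for every symbol. -/
def Sym.code : Sym → ℕ
  | .one => 0
  | .comma => 1
  | .semi => 2

instance : Enc Sym := ⟨fun s => tr s.code⟩

theorem tr_sym_injective : Injective (tr : Sym → T) := by
  intro a b h
  have : a.code = b.code := EncInj.inj (α := ℕ) h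
  cases a <;> cases b <;> first | rfl | (exact absurd this (by decide))

instance : EncInj Sym := ⟨fun _ _ h => tr_sym_injective h⟩

/-- One step of reading a word. -/
def readStep (s : ℕ × List ℕ × List (List ℕ)) (x : Sym) : ℕ × List ℕ × List (List ℕ) :=
  if x = Sym.one then (s.1 + 1, s.2.1, s.2.2)
  else if x = Sym.comma then (0, s.1 :: s.2.1, s.2.2)
  else (0, [], s.2.1.reverse :: s.2.2)

/-- The list of lists that is described by a word. -/
def parse (w : List Sym) : List (List ℕ) := (w.foldl readStep (0, [], [])).2.2.reverse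

theorem parse_aux_ones (k : ℕ) (c : ℕ) (r : List ℕ) (R : List (List ℕ)) :
    (List.replicate k Sym.one).foldl readStep (c, r, R) = (c + k, r, R) := by
  induction k generalizing c with
  | zero => rfl
  | succ k ih =>
    rw [List.replicate_succ, List.foldl_cons]
    have : readStep (c, r, R) Sym.one = (c + 1, r, R) := rfl
    rw [this, ih]
    congr 1
    omega

theorem parse_aux_num (k : ℕ) (r : List ℕ) (R : List (List ℕ)) :
    (num k).foldl readStep (0, r, R) = (0, k :: r, R) := by
  rw [num, List.foldl_append, parse_aux_ones, Nat.zero_add]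
  rfl

theorem parse_aux_nums (l r : List ℕ) (R : List (List ℕ)) :
    (l.flatMap num).foldl readStep (0, r, R) = (0, l.reverse ++ r, R) := by
  induction l generalizing r with
  | nil => rfl
  | cons k l ih =>
    rw [List.flatMap_cons, List.foldl_append, parse_aux_num, ih]
    simp

theorem parse_aux_word (L R : List (List ℕ)) :
    (word L).foldl readStep (0, [], R) = (0, [], L.reverse ++ R) := by
  induction L generalizing R with
  | nil => rfl
  | cons l L ih =>
    have : word (l :: L) = (l.flatMap num ++ [Sym.semi]) ++ word L := rfl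
    rw [this, List.foldl_append, List.foldl_append, parse_aux_nums, List.append_nil]
    have : [Sym.semi].foldl readStep (0, l.reverse, R) = (0, [], l.reverse.reverse :: R) := rfl
    rw [this, List.reverse_reverse, ih]
    simp

theorem parse_word (L : List (List ℕ)) : parse (word L) = L := by
  unfold parse
  rw [parse_aux_word]
  simp

theorem ptime_parse : PTime parse := by
  have h1 : PTime fun p : List Sym × (ℕ × List ℕ × List (List ℕ)) × Sym =>
      readStep p.2.1 p.2.2 := by
    unfold readStep
    refine PTime.ite (p := fun p : List Sym × (ℕ × List ℕ × List (List ℕ)) × Sym =>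
      p.2.2 = Sym.one) (by fun_prop) (by fun_prop) ?_
    exact PTime.ite (p := fun p : List Sym × (ℕ × List ℕ × List (List ℕ)) × Sym =>
      p.2.2 = Sym.comma) (by fun_prop) (by fun_prop) (by fun_prop)
  have key : ∀ (l : List Sym) (s : ℕ × List ℕ × List (List ℕ)),
      sz (l.foldl readStep s) ≤ sz s + 2 * l.length := by
    intro l
    induction l with
    | nil => intro s; simp
    | cons x l ih =>
      intro s
      rw [List.foldl_cons, List.length_cons]
      refine (ih _).trans ?_
      have : sz (readStep s x) ≤ sz s + 2 := by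
        obtain ⟨c, r, R⟩ := s
        unfold readStep
        split_ifs
        · simp only [sz_mk, sz_nat]; omega
        · simp only [sz_mk, sz_nat, sz_cons]; omega
        · simp only [sz_mk, sz_nat, sz_cons, sz_nil, sz_reverse]; omega
      omega
  have h2 : PTime fun w : List Sym => w.foldl readStep (0, [], []) := by
    refine PTime.foldl (l := fun w : List Sym => w) (s := fun _ => (0, [], []))
      (f := fun _ => readStep) (by fun_prop) (by fun_prop) h1
      (B := fun w => 5 + 2 * sz w) ((PB.const 5).add ((PB.const 2).mul PB.sz)) ?_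
    intro w l₁ l₂ e
    refine (key _ _).trans ?_
    have := length_le_sz w
    rw [e, List.length_append] at this
    simp only [sz_mk, sz_nat, sz_nil]
    rw [e]
    omega
  exact h2.snd'.snd'.reverse

theorem ptime_word : PTime word := by
  unfold word
  refine PTime.flatMap (f := fun (_ : List (List ℕ)) (l : List ℕ) => l.flatMap num ++ [Sym.semi])
    (by fun_prop) ?_
  refine PTime.append ?_ (by fun_prop)
  refine PTime.flatMap (l := fun p : List (List ℕ) × List ℕ => p.2) (f := fun _ k => num k)
    (by fun_prop) ?_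
  unfold num
  fun_prop

theorem ptime_tally : PTime tally := by
  unfold tally
  fun_prop

section

variable {α : Type} [Enc α]

/-! ### The roommates instance -/

@[fun_prop] theorem ptime_completeList {N s : α → ℕ} {h : α → List ℕ} (hN : PTime N)
    (hs : PTime s) (hh : PTime h) : PTime fun a => completeList (N a) (s a) (h a) := by
  unfold completeList
  refine PTime.append hh ?_
  refine PTime.filter (l := fun a => List.range (N a))
    (f := fun a x => !(decide (x = s a)) && !((h a).any fun y => decide (y = x))) (by fun_prop) ?_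
  refine PTime.and ?_ ?_
  · have h1 : PTime fun p : α × ℕ => s p.1 := hs.comp (by fun_prop)
    fun_prop
  · refine PTime.not ?_
    refine PTime.any (l := fun p : α × ℕ => h p.1) (f := fun p y => decide (y = p.2))
      (hh.comp (by fun_prop)) ?_
    fun_prop

theorem ptime_roomLists : PTime roomLists := by
  unfold roomLists
  refine PTime.flatMap (l := fun L : List (List ℕ) => List.range L.length)
    (f := fun L v => roomBlock (4 * L.length) v (L.getD v [])) (by fun_prop) ?_
  unfold roomBlock
  have h1 : PTime fun p : List (List ℕ) × ℕ => (p.1.getD p.2 []).map (fun u => 4 * u) :=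
    PTime.map (l := fun p : List (List ℕ) × ℕ => p.1.getD p.2 []) (f := fun _ u => 4 * u)
      (by fun_prop) (by fun_prop)
  fun_prop

/-! ### The marriage algorithm -/

@[fun_prop] theorem ptime_pos {l : α → List ℕ} {x : α → ℕ} (hl : PTime l) (hx : PTime x) :
    PTime fun a => pos (l a) (x a) := by
  unfold pos
  refine PTime.length ?_
  refine PTime.filter (l := fun a => List.range (l a).length)
    (f := fun a i => ((l a).take (i + 1)).all fun y => !(decide (y = x a))) (by fun_prop) ?_
  refine PTime.all (l := fun p : α × ℕ => (l p.1).take (p.2 + 1))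
    (f := fun p y => !(decide (y = x p.1))) ?_ ?_
  · have h1 : PTime fun p : α × ℕ => l p.1 := hl.comp (by fun_prop)
    fun_prop
  · have h1 : PTime fun p : (α × ℕ) × ℕ => x p.1.1 :=
      hx.comp (g := fun p : (α × ℕ) × ℕ => p.1.1) (by fun_prop)
    fun_prop

@[fun_prop] theorem ptime_mustMove {L : α → List (List ℕ)} {n : α → ℕ} {p : α → List ℕ}
    {b : α → ℕ} (hL : PTime L) (hn : PTime n) (hp : PTime p) (hb : PTime b) :
    PTime fun a => mustMove (L a) (n a) (p a) (b a) := by
  unfold mustMove
  refine PTime.and (by fun_prop) ?_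
  refine PTime.any (l := fun a => List.range (n a)) (by fun_prop) ?_
  have h1 : PTime fun q : α × ℕ => L q.1 := hL.comp (by fun_prop)
  have h2 : PTime fun q : α × ℕ => n q.1 := hn.comp (by fun_prop)
  have h3 : PTime fun q : α × ℕ => p q.1 := hp.comp (by fun_prop)
  have h4 : PTime fun q : α × ℕ => b q.1 := hb.comp (by fun_prop)
  fun_prop

@[fun_prop] theorem ptime_moveL {L : α → List (List ℕ)} {n : α → ℕ} {p : α → List ℕ}
    (hL : PTime L) (hn : PTime n) (hp : PTime p) : PTime fun a => moveL (L a) (n a) (p a) := by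
  unfold moveL
  refine PTime.map (l := fun a => List.range (n a))
    (f := fun a b => if mustMove (L a) (n a) (p a) b then (p a).getD b 0 + 1
      else (p a).getD b 0) (by fun_prop) ?_
  have h1 : PTime fun q : α × ℕ => L q.1 := hL.comp (by fun_prop)
  have h2 : PTime fun q : α × ℕ => n q.1 := hn.comp (by fun_prop)
  have h3 : PTime fun q : α × ℕ => p q.1 := hp.comp (by fun_prop)
  refine PTime.ite (p := fun q : α × ℕ => mustMove (L q.1) (n q.1) (p q.1) q.2 = true) ?_
    (by fun_prop) (by fun_prop)
  have h4 : PTime fun q : α × ℕ => mustMove (L q.1) (n q.1) (p q.1) q.2 := by fun_prop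
  exact h4.of_eq fun q => by simp

theorem length_moveL (L : List (List ℕ)) (n : ℕ) (p : List ℕ) : (moveL L n p).length = n := by
  simp [moveL]

theorem getD_moveL (L : List (List ℕ)) (n : ℕ) (p : List ℕ) {a : ℕ} (ha : a < n) :
    (moveL L n p).getD a 0 = if mustMove L n p a then p.getD a 0 + 1 else p.getD a 0 := by
  simp [moveL, List.getD_eq_getElem?_getD, ha]

/-- The start vector. -/
def startL (n a i : ℕ) : List ℕ := (List.range n).map fun b => if b = a then i else 0

theorem moveL_iterate_le (L : List (List ℕ)) (n : ℕ) (p : List ℕ) (B : ℕ)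
    (hp : p.length = n ∧ ∀ x ∈ p, x ≤ B) (k : ℕ) :
    ((moveL L n)^[k] p).length = n ∧ ∀ x ∈ (moveL L n)^[k] p, x ≤ B + k := by
  induction k with
  | zero => exact ⟨hp.1, fun x hx => by simpa using hp.2 x hx⟩
  | succ k ih =>
    rw [iterate_succ_apply']
    obtain ⟨h0, h1⟩ := ih
    generalize (moveL L n)^[k] p = q at h0 h1 ⊢
    refine ⟨length_moveL _ _ _, ?_⟩
    intro x hx
    unfold moveL at hx
    rw [List.mem_map] at hx
    obtain ⟨a, ha, rfl⟩ := hx
    rw [List.mem_range] at ha
    have h2 : q.getD a 0 ≤ B + k := by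
      rw [List.getD_eq_getElem?_getD, List.getElem?_eq_getElem (by rw [h0]; exact ha),
        Option.getD_some]
      exact h1 _ (List.getElem_mem _)
    split_ifs <;> omega

@[fun_prop] theorem ptime_leastL {L : α → List (List ℕ)} {n m i : α → ℕ}
    (hL : PTime L) (hn : PTime n) (hm : PTime m) (hi : PTime i) :
    PTime fun a => leastL (L a) (n a) (m a) (i a) := by
  unfold leastL
  have hs : PTime fun a => (List.range (n a)).map fun b => if b = m a then i a else 0 := by
    refine PTime.map (l := fun a => List.range (n a)) (f := fun a b => if b = m a then i a else 0)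
      (by fun_prop) ?_
    have h2 : PTime fun q : α × ℕ => m q.1 := hm.comp (by fun_prop)
    have h3 : PTime fun q : α × ℕ => i q.1 := hi.comp (by fun_prop)
    exact PTime.ite (p := fun q : α × ℕ => q.2 = m q.1) (by fun_prop) (by fun_prop) (by fun_prop)
  refine PTime.iterate (n := fun a => n a * n a) (f := fun a p => moveL (L a) (n a) p)
    (by fun_prop) hs ?_
    (B := fun a => sz (n a) * (2 * (sz (i a) + sz (n a) * sz (n a)) + 1 + 1) + 1) ?_ ?_
  · have h1 : PTime fun q : α × List ℕ => L q.1 := hL.comp (by fun_prop)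
    have h2 : PTime fun q : α × List ℕ => n q.1 := hn.comp (by fun_prop)
    fun_prop
  · exact (hn.sz_le.mul ((((PB.const 2).mul (hi.sz_le.add (hn.sz_le.mul hn.sz_le))).add
      (PB.const 1)).add (PB.const 1))).add (PB.const 1)
  · intro a k hk
    have h1 := moveL_iterate_le (L a) (n a)
      ((List.range (n a)).map fun b => if b = m a then i a else 0) (i a) ⟨by simp, ?_⟩ k
    · have h2 : ∀ x ∈ (moveL (L a) (n a))^[k]
          ((List.range (n a)).map fun b => if b = m a then i a else 0),
          sz x ≤ 2 * (sz (i a) + sz (n a) * sz (n a)) + 1 := by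
        intro x hx
        have h3 := h1.2 x hx
        rw [sz_nat, sz_nat, sz_nat]
        have h4 : n a * n a ≤ (2 * n a + 1) * (2 * n a + 1) :=
          Nat.mul_le_mul (by omega) (by omega)
        omega
      refine (sz_le_of_forall h2).trans ?_
      rw [h1.1]
      have h5 : n a ≤ sz (n a) := by rw [sz_nat]; omega
      exact Nat.add_le_add_right (Nat.mul_le_mul_right _ h5) 1
    · intro x hx
      rw [List.mem_map] at hx
      obtain ⟨b, -, rfl⟩ := hx
      split_ifs <;> omega

@[fun_prop] theorem ptime_vecs {L : α → List (List ℕ)} {n : α → ℕ} (hL : PTime L)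
    (hn : PTime n) : PTime fun a => vecs (L a) (n a) := by
  unfold vecs
  refine PTime.filter (f := fun a (p : List ℕ) => p.all fun x => decide (x < n a)) ?_ ?_
  · refine PTime.flatMap (l := fun a => List.range (n a))
      (f := fun a m => (List.range (n a)).map fun i => leastL (L a) (n a) m i) (by fun_prop) ?_
    refine PTime.map (l := fun q : α × ℕ => List.range (n q.1))
      (f := fun q i => leastL (L q.1) (n q.1) q.2 i) ?_ ?_
    · have h2 : PTime fun q : α × ℕ => n q.1 := hn.comp (by fun_prop)
      fun_prop
    · have h1 : PTime fun q : (α × ℕ) × ℕ => L q.1.1 :=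
        hL.comp (g := fun q : (α × ℕ) × ℕ => q.1.1) (by fun_prop)
      have h2 : PTime fun q : (α × ℕ) × ℕ => n q.1.1 :=
        hn.comp (g := fun q : (α × ℕ) × ℕ => q.1.1) (by fun_prop)
      fun_prop
  · refine PTime.all (l := fun q : α × List ℕ => q.2) (f := fun q x => decide (x < n q.1))
      (by fun_prop) ?_
    have h2 : PTime fun q : (α × List ℕ) × ℕ => n q.1.1 :=
      hn.comp (g := fun q : (α × List ℕ) × ℕ => q.1.1) (by fun_prop)
    fun_prop

@[fun_prop] theorem ptime_ltL {n : α → ℕ} {p q : α → List ℕ} (hn : PTime n) (hp : PTime p)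
    (hq : PTime q) : PTime fun a => ltL (n a) (p a) (q a) := by
  unfold ltL
  have h1 : PTime fun r : α × ℕ => p r.1 := hp.comp (by fun_prop)
  have h2 : PTime fun r : α × ℕ => q r.1 := hq.comp (by fun_prop)
  refine PTime.and ?_ ?_
  · exact PTime.all (l := fun a => List.range (n a))
      (f := fun a b => decide ((p a).getD b 0 ≤ (q a).getD b 0)) (by fun_prop) (by fun_prop)
  · exact PTime.any (l := fun a => List.range (n a))
      (f := fun a b => decide ((p a).getD b 0 < (q a).getD b 0)) (by fun_prop) (by fun_prop)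

end

/-! ### Logarithms -/

theorem lg_aux (m k : ℕ) :
    let s := (fun s : ℕ × ℕ => if s.1 ≤ m then (s.1 + s.1, s.2 + 1) else s)^[k] (1, 0)
    s.1 = 2 ^ s.2 ∧ s.1 ≤ 2 * (m + 1) ∧ (m < s.1 ∨ s.2 = k) := by
  induction k with
  | zero => simp; omega
  | succ k ih =>
    simp only [iterate_succ_apply'] at ih ⊢
    obtain ⟨h1, h2, h3⟩ := ih
    split_ifs with h
    · refine ⟨by simp only; rw [pow_succ, ← h1]; ring, by simp only; omega, ?_⟩
      right
      simp only
      rcases h3 with h3 | h3 <;> omega
    · exact ⟨h1, h2, Or.inl (by omega)⟩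

theorem lt_two_pow_lg (m : ℕ) : m < 2 ^ lg m := by
  have h := lg_aux m (m + 1)
  simp only at h
  obtain ⟨h1, h2, h3⟩ := h
  unfold lg
  rcases h3 with h3 | h3
  · rw [h1] at h3; exact h3
  · rw [h3]
    exact (Nat.lt_two_pow_self (n := m)).trans (Nat.pow_lt_pow_right (by norm_num) (by omega))

theorem two_pow_lg_le (m : ℕ) : 2 ^ lg m ≤ 2 * (m + 1) := by
  have h := lg_aux m (m + 1)
  simp only at h
  obtain ⟨h1, h2, h3⟩ := h
  unfold lg
  rw [← h1]
  exact h2

theorem lg_le (m : ℕ) : lg m ≤ Nat.log 2 (m + 1) + 1 := by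
  have h := two_pow_lg_le m
  have h1 : lg m ≤ Nat.log 2 (2 * (m + 1)) := Nat.le_log_of_pow_le (by norm_num) h
  refine h1.trans ?_
  rw [mul_comm, Nat.log_mul_base (by norm_num) (by omega)]

theorem ptime_lg {α : Type} [Enc α] {m : α → ℕ} (hm : PTime m) : PTime fun a => lg (m a) := by
  unfold lg
  refine PTime.snd' ?_
  refine PTime.iterate (n := fun a => m a + 1) (s := fun _ => ((1, 0) : ℕ × ℕ))
    (f := fun a (s : ℕ × ℕ) => if s.1 ≤ m a then (s.1 + s.1, s.2 + 1) else s)
    (by fun_prop) (by fun_prop) ?_ (B := fun a => 10 * (sz (m a) + 2)) ?_ ?_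
  · have h1 : PTime fun q : α × ℕ × ℕ => m q.1 := hm.comp (by fun_prop)
    exact PTime.ite (p := fun q : α × ℕ × ℕ => q.2.1 ≤ m q.1) (by fun_prop) (by fun_prop)
      (by fun_prop)
  · exact (PB.const 10).mul (hm.sz_le.add (PB.const 2))
  · intro a k hk
    obtain ⟨h1, h2, -⟩ := lg_aux (m a) k
    generalize (fun s : ℕ × ℕ => if s.1 ≤ m a then (s.1 + s.1, s.2 + 1) else s)^[k] (1, 0) = s
      at h1 h2 ⊢
    obtain ⟨x, y⟩ := s
    simp only at h1 h2
    rw [sz_mk, sz_nat, sz_nat, sz_nat]
    have : y < 2 ^ y := Nat.lt_two_pow_self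
    omega

end Pool.Agent.Lib.MP_186ff7_lc
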