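import Mathlib

/-!
# Stable roommates, stable marriage, and reductions with correspondence: the definitions
-/

namespace Pool.Agent.Lib.MP_186ff7_lc

open Turing

/-! ### Words -/

/-- The symbols with which instances, matchings and graphs are written down. -/
inductive Sym
  | one
  | comma
  | semi
  deriving DecidableEq, Inhabited

instance : Fintype Sym := ⟨{Sym.one, Sym.comma, Sym.semi}, fun x => by cases x <;> decide⟩

/-- A natural number in unary notation, followed by a comma. -/
def num (k : ℕ) : List Sym := List.replicate k Sym.one ++ [Sym.comma]

/-- A list of lists of natural numbers, written as a word: every number is written in unary and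
followed by a comma, and every list is followed by a semicolon. -/
def word (L : List (List ℕ)) : List Sym := L.flatMap fun l => l.flatMap num ++ [Sym.semi]

/-- A natural number in unary notation. -/
def tally (k : ℕ) : List Sym := List.replicate k Sym.one

/-! ### Stable roommates -/

/-- An instance of the stable roommates problem: every one of the `n` agents has a list of all other
agents, in the order of decreasing preference. -/
structure Roommates where
  n : ℕ
  list : Fin n → List (Fin n)
  nodup : ∀ a, (list a).Nodup
  mem_iff : ∀ a b, b ∈ list a ↔ b ≠ a

namespace Roommates

variable (I : Roommates)

/-- The agent `a` prefers `b` to `c`: the agent `b` comes before `c` in the list of `a`. For `c = a`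
this means that `a` prefers `b` to being unmatched: the list of `a` does not contain `a`, so
`idxOf a` is the length of the list, and `a` prefers every other agent to being unmatched. -/
def Prefers (a b c : Fin I.n) : Prop := (I.list a).idxOf b < (I.list a).idxOf c

/-- The map `μ` describes a stable matching. A matching is described by the map that sends every
matched agent to its partner and every unmatched agent to itself; these maps are the involutions.
The matching is stable if there are no two agents who prefer each other to their situations. -/
structure IsStable (μ : Fin I.n → Fin I.n) : Prop where
  invol : ∀ a, μ (μ a) = a
  noBlock : ∀ a b, ¬ (I.Prefers a b (μ a) ∧ I.Prefers b a (μ b))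

/-- The stable matchings of an instance. -/
abbrev Stable : Type := {μ : Fin I.n → Fin I.n // I.IsStable μ}

/-- The instance is solvable if it has a stable matching. -/
def Solvable : Prop := Nonempty I.Stable

/-- The instance as a word: the lists of the agents. -/
def encode : List Sym := word (List.ofFn fun a => (I.list a).map Fin.val)

variable {I} in
/-- A stable matching as a word: the list of the partners. -/
def Stable.encode (μ : I.Stable) : List Sym := word [List.ofFn fun a => (μ.1 a).val]

end Roommates

/-! ### Stable marriage -/

/-- An instance of the stable marriage problem: every one of the `n` men has a list of all women, and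
every one of the `n` women has a list of all men, in the order of decreasing preference. -/
structure Marriage where
  n : ℕ
  men : Fin n → List (Fin n)
  women : Fin n → List (Fin n)
  men_nodup : ∀ a, (men a).Nodup
  men_mem : ∀ a w, w ∈ men a
  women_nodup : ∀ w, (women w).Nodup
  women_mem : ∀ w a, a ∈ women w

namespace Marriage

variable (J : Marriage)

/-- The map `ν` describes a stable matching of men and women: `ν a` is the wife of the man `a`, if
he has one. Different men have different wives, and there are no man `a` and woman `w` such that `a`
is single or prefers `w` to his wife, and `w` is single or prefers `a` to her husband. -/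
structure IsStable (ν : Fin J.n → Option (Fin J.n)) : Prop where
  inj : ∀ a b w, ν a = some w → ν b = some w → a = b
  noBlock : ∀ a w, ¬ ((∀ w', ν a = some w' → (J.men a).idxOf w < (J.men a).idxOf w') ∧
    ∀ a', ν a' = some w → (J.women w).idxOf a < (J.women w).idxOf a')

/-- The stable matchings of an instance. -/
abbrev Stable : Type := {ν : Fin J.n → Option (Fin J.n) // J.IsStable ν}

/-- The instance as a word: the lists of the men, then the lists of the women. -/
def encode : List Sym := word ((List.ofFn fun a => (J.men a).map Fin.val) ++
  List.ofFn fun w => (J.women w).map Fin.val)

variable {J} in
/-- A stable matching as a word: for every man the list that contains his wife, if he has one. -/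
def Stable.encode (ν : J.Stable) : List Sym :=
  word (List.ofFn fun a => (ν.1 a).toList.map Fin.val)

end Marriage

/-! ### Reductions -/

/-- The solvable instances of the stable roommates problem. -/
abbrev SolvableRoommates : Type := {I : Roommates // I.Solvable}

/-- The function `f` from solvable roommates instances to marriage instances is computable in
polynomial time. The algorithm has to work only on the solvable instances. -/
def PolyTimeMap (f : SolvableRoommates → Marriage) : Prop :=
  Nonempty (TM2ComputableInPolyTime (fun I : SolvableRoommates => I.1.encode) Marriage.encode f)

/-- **A reduction with correspondence** from solvable roommates instances to marriage instances: a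
triple of polynomial-time algorithms `f`, `g`, `h`. The algorithm `f` maps solvable roommates
instances to marriage instances, and for every solvable instance `I` the algorithms `g` and `h` (with
`I` as a part of the input) compute mutually inverse bijections between the stable matchings of `I`
and the stable matchings of `f I`. -/
structure Reduction where
  f : SolvableRoommates → Marriage
  g : ∀ I : SolvableRoommates, I.1.Stable → (f I).Stable
  h : ∀ I : SolvableRoommates, (f I).Stable → I.1.Stable
  left_inv : ∀ I, Function.LeftInverse (h I) (g I)
  right_inv : ∀ I, Function.RightInverse (h I) (g I)
  f_poly : PolyTimeMap f
  g_poly : Nonempty (TM2ComputableInPolyTime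
    (fun x : (I : SolvableRoommates) × I.1.Stable => x.1.1.encode ++ x.2.encode)
    (fun y : (J : Marriage) × J.Stable => y.2.encode) fun x => ⟨f x.1, g x.1 x.2⟩)
  h_poly : Nonempty (TM2ComputableInPolyTime
    (fun x : (I : SolvableRoommates) × (f I).Stable => x.1.1.encode ++ x.2.encode)
    (fun y : (I : Roommates) × I.Stable => y.2.encode) fun x => ⟨x.1.1, h x.1 x.2⟩)

/-- There is a polynomial-time map from solvable roommates instances to marriage instances that
preserves the number of stable matchings. -/
def CountPreservingMap : Prop :=
  ∃ f : SolvableRoommates → Marriage, PolyTimeMap f ∧
    ∀ I : SolvableRoommates, Nat.card I.1.Stable = Nat.card (f I).Stable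

/-! ### Graphs -/

/-- A finite simple graph with the vertices `0, …, n - 1`. -/
structure Graph where
  n : ℕ
  graph : SimpleGraph (Fin n)

open Classical in
/-- The graph as a word: for every vertex the list of its neighbours in increasing order. -/
noncomputable def Graph.encode (G : Graph) : List Sym :=
  word (List.ofFn fun v => ((List.finRange G.n).filter fun u => G.graph.Adj v u).map Fin.val)

/-- There is a polynomial-time algorithm that approximates the independence number of graphs within
a factor that is polylogarithmic in the number of vertices. -/
def PolylogApproximation : Prop :=
  ∃ (C : ℕ) (a : Graph → ℕ), Nonempty (TM2ComputableInPolyTime Graph.encode tally a) ∧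
    ∀ G : Graph, 0 < G.n →
      G.graph.indepNum ≤ a G ∧ a G ≤ C * (1 + Nat.log 2 G.n) ^ 3 * G.graph.indepNum

end Pool.Agent.Lib.MP_186ff7_lc
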