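import Pool.Agent.Lib.MP_186ff7_lc.Prog

/-!
# The greedy algorithm runs in polynomial time
-/

namespace Pool.Agent.Lib.MP_186ff7_lc

open Function Pool.Agent.Lib.PT

section

set_option linter.unusedSectionVars false

variable {α V : Type} [Enc α] [Enc V] [EncInj V] [DecidableEq V]

theorem ptime_extend {lt : α → V → V → Bool} {R : α → List V} {C : α → List (List V)}
    (hlt : PTime fun p : α × V × V => lt p.1 p.2.1 p.2.2) (hR : PTime R) (hC : PTime C) :
    PTime fun a => extend (lt a) (R a) (C a) := by
  unfold extend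
  refine PTime.flatMap (l := R) (f := fun a x => (((C a).filter fun c =>
    (c.take 1).any fun y => lt a y x).take 1).map fun c => x :: c) hR ?_
  refine PTime.map (l := fun p : α × V => ((C p.1).filter fun c =>
    (c.take 1).any fun y => lt p.1 y p.2).take 1) (f := fun p c => p.2 :: c) ?_ (by fun_prop)
  refine PTime.take (by fun_prop) ?_
  refine PTime.filter (l := fun p : α × V => C p.1)
    (f := fun p c => (c.take 1).any fun y => lt p.1 y p.2) (hC.comp (by fun_prop)) ?_
  refine PTime.any (l := fun q : (α × V) × List V => q.2.take 1)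
    (f := fun q y => lt q.1.1 y q.1.2) (by fun_prop) ?_
  exact hlt.comp (g := fun r : ((α × V) × List V) × V => (r.1.1.1, r.2, r.1.1.2)) (by fun_prop)

theorem ptime_growStep {lt : α → V → V → Bool} {R : α → List V} {C : α → List (List V)}
    (hlt : PTime fun p : α × V × V => lt p.1 p.2.1 p.2.2) (hR : PTime R) (hC : PTime C) :
    PTime fun a => growStep (lt a) (R a) (C a) := by
  unfold growStep
  have h := ptime_extend hlt hR hC
  refine PTime.ite (p := fun a => (extend (lt a) (R a) (C a)).isEmpty = true) ?_ hC h
  exact h.isEmpty.of_eq fun a => Bool.decide_eq_true.symm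

/-- Sizes of lists of short chains. -/
theorem sz_chains {R : List V} {C : List (List V)} {m : ℕ} (h1 : C.length ≤ R.length)
    (h2 : ∀ c ∈ C, c.length ≤ m ∧ ∀ x ∈ c, x ∈ R) (hm : m ≤ sz R + 1) :
    sz C ≤ sz R * ((sz R + 1) * (sz R + 1) + 1 + 1) + 1 := by
  have h3 : ∀ c ∈ C, sz c ≤ (sz R + 1) * (sz R + 1) + 1 := by
    intro c hc
    have h4 : ∀ x ∈ c, sz x ≤ sz R := fun x hx => sz_mem_le ((h2 c hc).2 x hx)
    refine (sz_le_of_forall h4).trans ?_
    exact Nat.add_le_add_right (Nat.mul_le_mul_right _ ((h2 c hc).1.trans hm)) 1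
  refine (sz_le_of_forall h3).trans ?_
  exact Nat.add_le_add_right (Nat.mul_le_mul_right _ (h1.trans (length_le_sz R))) 1

theorem length_extend_le (lt : V → V → Bool) (R : List V) (C : List (List V)) :
    (extend lt R C).length ≤ R.length := by
  unfold extend
  induction R with
  | nil => simp
  | cons x R ih =>
    rw [List.flatMap_cons, List.length_append, List.length_map, List.length_cons]
    have := List.length_take_le 1 (C.filter fun c => (c.take 1).any fun y => lt y x)
    omega

theorem mem_extend {lt : V → V → Bool} {R : List V} {C : List (List V)} {d : List V} :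
    d ∈ extend lt R C → ∃ x ∈ R, ∃ c ∈ C, ((c.take 1).any fun y => lt y x) = true ∧ d = x :: c := by
  intro h
  unfold extend at h
  rw [List.mem_flatMap] at h
  obtain ⟨x, hx, h⟩ := h
  rw [List.mem_map] at h
  obtain ⟨c, hc, rfl⟩ := h
  have := List.mem_of_mem_take hc
  rw [List.mem_filter] at this
  exact ⟨x, hx, c, this.1, this.2, rfl⟩

theorem growStep_iterate_bound (lt : V → V → Bool) (R : List V) (k : ℕ) :
    ((growStep lt R)^[k] (R.map fun x => [x])).length ≤ R.length ∧
      ∀ c ∈ (growStep lt R)^[k] (R.map fun x => [x]), c.length ≤ k + 1 ∧ ∀ x ∈ c, x ∈ R := by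
  induction k with
  | zero =>
    refine ⟨by simp, ?_⟩
    intro c hc
    simp only [iterate_zero, id, List.mem_map] at hc
    obtain ⟨x, hx, rfl⟩ := hc
    refine ⟨by simp, fun y hy => ?_⟩
    rw [List.mem_singleton] at hy
    rwa [hy]
  | succ k ih =>
    rw [iterate_succ_apply']
    generalize (growStep lt R)^[k] (R.map fun x => [x]) = C at ih ⊢
    unfold growStep
    split_ifs
    · exact ⟨ih.1, fun c hc => ⟨by have := (ih.2 c hc).1; omega, (ih.2 c hc).2⟩⟩
    · refine ⟨length_extend_le _ _ _, fun d hd => ?_⟩
      obtain ⟨x, hx, c, hc, -, rfl⟩ := mem_extend hd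
      have := ih.2 c hc
      refine ⟨by rw [List.length_cons]; omega, fun y hy => ?_⟩
      rw [List.mem_cons] at hy
      rcases hy with rfl | hy
      · exact hx
      · exact this.2 y hy

theorem ptime_longest {lt : α → V → V → Bool} {R : α → List V}
    (hlt : PTime fun p : α × V × V => lt p.1 p.2.1 p.2.2) (hR : PTime R) :
    PTime fun a => longest (lt a) (R a) := by
  unfold longest
  refine PTime.headD ?_ (by fun_prop)
  have hs : PTime fun a => (R a).map fun x => [x] :=
    PTime.map (l := R) (f := fun _ x => [x]) hR (by fun_prop)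
  refine PTime.iterate (n := fun a => (R a).length) (f := fun a C => growStep (lt a) (R a) C)
    (by fun_prop) hs ?_
    (B := fun a => sz (R a) * ((sz (R a) + 1) * (sz (R a) + 1) + 1 + 1) + 1) ?_ ?_
  · refine ptime_growStep (lt := fun p : α × List (List V) => lt p.1) (R := fun p => R p.1)
      (C := fun p => p.2) ?_ (hR.comp (by fun_prop)) (by fun_prop)
    exact hlt.comp (g := fun r : (α × List (List V)) × V × V => (r.1.1, r.2.1, r.2.2))
      (by fun_prop)
  · exact (hR.sz_le.mul ((((hR.sz_le.add (PB.const 1)).mul (hR.sz_le.add (PB.const 1))).add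
      (PB.const 1)).add (PB.const 1))).add (PB.const 1)
  · intro a k hk
    have h1 := growStep_iterate_bound (lt a) (R a) k
    exact sz_chains h1.1 h1.2 (by have := length_le_sz (R a); omega)

theorem ptime_strip {lt : α → V → V → Bool} {s : α → List V × ℕ}
    (hlt : PTime fun p : α × V × V => lt p.1 p.2.1 p.2.2) (hs : PTime s) :
    PTime fun a => strip (lt a) (s a) := by
  unfold strip
  have h0 : PTime fun a => (s a).1.isEmpty := by fun_prop
  refine PTime.ite (p := fun a => (s a).1.isEmpty = true) (h0.of_eq fun a => Bool.decide_eq_true.symm) hs ?_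
  refine PTime.pair ?_ (by fun_prop)
  refine PTime.filter (l := fun a => (s a).1)
    (f := fun a x => !((longest (lt a) (s a).1).any fun y => decide (y = x))) (by fun_prop) ?_
  refine PTime.not ?_
  have h1 : PTime fun a => longest (lt a) (s a).1 := ptime_longest hlt (by fun_prop)
  exact PTime.any (l := fun p : α × V => longest (lt p.1) (s p.1).1)
    (f := fun p y => decide (y = p.2)) (h1.comp PTime.fst) (by fun_prop)

omit [EncInj V] [DecidableEq V] in
theorem sz_filter_le (p : V → Bool) (l : List V) : sz (l.filter p) ≤ sz l := by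
  induction l with
  | nil => simp
  | cons x l ih =>
    rw [List.filter_cons, sz_cons]
    split_ifs
    · rw [sz_cons]; omega
    · omega

theorem strip_iterate_bound (lt : V → V → Bool) (Q : List V) (k : ℕ) :
    sz ((strip lt)^[k] (Q, 0)).1 ≤ sz Q ∧ ((strip lt)^[k] (Q, 0)).2 ≤ k := by
  induction k with
  | zero => simp
  | succ k ih =>
    rw [iterate_succ_apply']
    generalize (strip lt)^[k] (Q, 0) = s at ih ⊢
    unfold strip
    split_ifs
    · exact ⟨ih.1, by omega⟩
    · exact ⟨(sz_filter_le _ _).trans ih.1, by simp only; omega⟩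

theorem ptime_greedy {lt : α → V → V → Bool} {Q : α → List V}
    (hlt : PTime fun p : α × V × V => lt p.1 p.2.1 p.2.2) (hQ : PTime Q) :
    PTime fun a => greedy (lt a) (Q a) := by
  unfold greedy
  refine PTime.snd' ?_
  refine PTime.iterate (n := fun a => (Q a).length) (s := fun a => (Q a, 0))
    (f := fun a s => strip (lt a) s) (by fun_prop) (by fun_prop) ?_
    (B := fun a => sz (Q a) + (2 * sz (Q a) + 1) + 1) ?_ ?_
  · exact ptime_strip (lt := fun p : α × List V × ℕ => lt p.1) (s := fun p => p.2)
      (hlt.comp (g := fun r : (α × List V × ℕ) × V × V => (r.1.1, r.2.1, r.2.2)) (by fun_prop))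
      (by fun_prop)
  · exact (hQ.sz_le.add (((PB.const 2).mul hQ.sz_le).add (PB.const 1))).add (PB.const 1)
  · intro a k hk
    have h1 := strip_iterate_bound (lt a) (Q a) k
    have h2 := length_le_sz (Q a)
    generalize (strip (lt a))^[k] (Q a, 0) = s at h1 ⊢
    obtain ⟨x, y⟩ := s
    simp only at h1
    rw [sz_mk, sz_nat]
    omega

end

/-- The estimate is computable in polynomial time. -/
theorem ptime_estimate : PTime estimate := by
  unfold estimate
  refine PTime.mul ?_ ?_
  · refine ptime_greedy (lt := fun L : List (List ℕ) => ltL (L.getD 0 []).length)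
      (Q := fun L => vecs L (L.getD 0 []).length) ?_ (by fun_prop)
    have h1 : PTime fun p : List (List ℕ) × List ℕ × List ℕ => (p.1.getD 0 []).length := by
      fun_prop
    exact ptime_ltL h1 (by fun_prop) (by fun_prop)
  · exact ptime_lg (m := fun L : List (List ℕ) => (vecs L (L.getD 0 []).length).length)
      (by fun_prop)

end Pool.Agent.Lib.MP_186ff7_lc
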