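import Pool.Agent.Lib.MP_186ff7_lc.Marr
import Pool.Agent.Lib.MP_186ff7_lc.ProgGreedy

/-!
# The approximation algorithm
-/

namespace Pool.Agent.Lib.MP_186ff7_lc

open Function Turing Pool.Agent.Lib.PT

/-! ### The estimate for marriage instances -/

theorem estimate_spec (hG : StGreedy) (hL : StLattice) (J : Marriage) :
    Nat.card J.Stable ≤ 2 ^ estimate J.lists ∧
    estimate J.lists ≤ 2 * Nat.log 2 (Nat.card J.Stable + 1) *
      ((Nat.log 2 (J.n * J.n + 1) + 1) * (Nat.log 2 (J.n * J.n + 1) + 1)) := by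
  classical
  set Q := vecs J.lists J.n with hQ
  set N := Nat.card J.Stable with hN
  have he : estimate J.lists = greedy (ltL J.n) Q * lg Q.length := by
    unfold estimate
    rw [J.length_head]
  have hmem : ∀ q ∈ Q, List.ofFn (Marriage.toFn J.n q) = q := by
    intro q hq
    rw [hQ, J.mem_vecs] at hq
    obtain ⟨a, i, -, rfl, -⟩ := hq
    rw [Marriage.toFn_ofFn]
  have hinj : ∀ x ∈ Q, ∀ y ∈ Q, Marriage.toFn J.n x = Marriage.toFn J.n y → x = y := by
    intro x hx y hy h
    rw [← hmem x hx, ← hmem y hy, h]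
  obtain ⟨⟨C, hC1, hC2⟩, hw⟩ := hG (List ℕ) (Fin J.n → ℕ) (ltL J.n) (Marriage.toFn J.n) Q hinj
    fun x _ y _ => Marriage.ltL_iff J.n x y
  let Q' : Finset (Fin J.n → ℕ) := (Q.map (Marriage.toFn J.n)).toFinset
  have hQ' : ∀ q, q ∈ Q' ↔ ∃ a, ∃ i < J.n, leastF J.rM J.rW a i = q ∧ ∀ b, q b < J.n := by
    intro q
    rw [List.mem_toFinset, List.mem_map]
    constructor
    · rintro ⟨p, hp, rfl⟩
      rw [hQ, J.mem_vecs] at hp
      obtain ⟨a, i, hi, rfl, h⟩ := hp
      rw [Marriage.toFn_ofFn]
      exact ⟨a, i, hi, rfl, h⟩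
    · rintro ⟨a, i, hi, rfl, h⟩
      refine ⟨List.ofFn (leastF J.rM J.rW a i), ?_, Marriage.toFn_ofFn _⟩
      rw [hQ, J.mem_vecs]
      exact ⟨a, i, hi, rfl, h⟩
  obtain ⟨hup, hlow⟩ := hL J.n J.rM J.rW J.rM_injective J.rM_lt J.rW_injective Q' hQ'
  rw [← J.card_stable, ← hN] at hup hlow
  have hcard : Q'.card ≤ Q.length := by
    refine (List.toFinset_card_le _).trans ?_
    rw [List.length_map]
  constructor
  · have h1 := hup (greedy (ltL J.n) Q) (fun j => (C j).image (Marriage.toFn J.n)) ?_ ?_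
    · refine h1.trans ?_
      rw [he, mul_comm, pow_mul]
      refine Nat.pow_le_pow_left ?_ _
      have := lt_two_pow_lg Q.length
      omega
    · intro j x hx y hy
      simp only [Finset.mem_image] at hx hy
      obtain ⟨x', hx', rfl⟩ := hx
      obtain ⟨y', hy', rfl⟩ := hy
      exact hC1 j x' hx' y' hy'
    · intro q hq
      rw [List.mem_toFinset, List.mem_map] at hq
      obtain ⟨p, hp, rfl⟩ := hq
      obtain ⟨j, hj⟩ := hC2 p hp
      exact ⟨j, Finset.mem_image_of_mem _ hj⟩
  · have h1 := hw (Nat.log 2 (N + 1)) ?_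
    · rw [he]
      have hlen : Q.length ≤ J.n * J.n := J.length_vecs_le
      have h2 : Nat.log 2 Q.length + 1 ≤ Nat.log 2 (J.n * J.n + 1) + 1 :=
        Nat.add_le_add_right (Nat.log_mono_right (by omega)) 1
      have h3 : lg Q.length ≤ Nat.log 2 (J.n * J.n + 1) + 1 :=
        (lg_le _).trans (Nat.add_le_add_right (Nat.log_mono_right (by omega)) 1)
      calc greedy (ltL J.n) Q * lg Q.length
          ≤ (2 * Nat.log 2 (N + 1) * (Nat.log 2 Q.length + 1)) *
            (Nat.log 2 (J.n * J.n + 1) + 1) := Nat.mul_le_mul h1 h3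
        _ ≤ (2 * Nat.log 2 (N + 1) * (Nat.log 2 (J.n * J.n + 1) + 1)) *
            (Nat.log 2 (J.n * J.n + 1) + 1) :=
            Nat.mul_le_mul_right _ (Nat.mul_le_mul_left _ h2)
        _ = _ := by ring
    · intro A hA1 hA2
      have h2 := hlow (A.image (Marriage.toFn J.n)) ?_ ?_
      · rw [Finset.card_image_of_injOn fun x hx y hy h =>
          hinj x (hA1 x hx) y (hA1 y hy) h] at h2
        exact Nat.le_log_of_pow_le (by norm_num) h2
      · intro q hq
        rw [Finset.mem_image] at hq
        obtain ⟨p, hp, rfl⟩ := hq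
        rw [List.mem_toFinset, List.mem_map]
        exact ⟨p, hA1 p hp, rfl⟩
      · intro x hx y hy h
        rw [Finset.mem_image] at hx hy
        obtain ⟨x', hx', rfl⟩ := hx
        obtain ⟨y', hy', rfl⟩ := hy
        rw [hA2 x' hx' y' hy' h]

/-! ### Arithmetic -/

theorem eval_le_pow (P : Polynomial ℕ) : ∃ K d : ℕ, ∀ n, P.eval (n + 1) ≤ K * (n + 1) ^ d := by
  refine ⟨P.eval 1, P.natDegree, fun n => ?_⟩
  rw [Polynomial.eval_eq_sum_range, Polynomial.eval_eq_sum_range, Finset.sum_mul]
  refine Finset.sum_le_sum fun i hi => ?_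
  rw [one_pow, mul_one]
  refine Nat.mul_le_mul_left _ (Nat.pow_le_pow_right (by omega) ?_)
  rw [Finset.mem_range] at hi
  omega

/-- The logarithm of a polynomial is at most a multiple of the logarithm. -/
theorem log_eval_le (P : Polynomial ℕ) : ∃ c : ℕ, ∀ n, 0 < n →
    Nat.log 2 (P.eval n * P.eval n + 1) + 1 ≤ c * (1 + Nat.log 2 n) := by
  obtain ⟨K, d, h⟩ := eval_le_pow (P * P + 1)
  refine ⟨K + d + 2, fun n hn => ?_⟩
  obtain ⟨m, rfl⟩ : ∃ m, n = m + 1 := ⟨n - 1, by omega⟩
  have h1 := h m
  rw [Polynomial.eval_add, Polynomial.eval_mul, Polynomial.eval_one] at h1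
  have h2 : K < 2 ^ K := Nat.lt_two_pow_self
  have h3 : m + 1 < 2 ^ (Nat.log 2 (m + 1) + 1) := Nat.lt_pow_succ_log_self (by norm_num) _
  have h4 : P.eval (m + 1) * P.eval (m + 1) + 1 ≤ 2 ^ (K + (Nat.log 2 (m + 1) + 1) * d) := by
    refine h1.trans ?_
    rw [pow_add, pow_mul]
    exact Nat.mul_le_mul h2.le (Nat.pow_le_pow_left h3.le _)
  have h5 := Nat.log_mono_right (b := 2) h4
  rw [Nat.log_pow (by norm_num)] at h5
  nlinarith [Nat.zero_le (Nat.log 2 (m + 1)), Nat.zero_le K, Nat.zero_le d,
    Nat.zero_le (K * Nat.log 2 (m + 1))]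

/-! ### Lengths of outputs -/

theorem output_bound {α β αΓ βΓ : Type} {ea : α → List αΓ} {eb : β → List βΓ} {f : α → β}
    (M : TM2ComputableInPolyTime ea eb f) :
    ∃ P : Polynomial ℕ, ∀ a, (eb (f a)).length ≤ P.eval (ea a).length := by
  obtain ⟨b, hb⟩ : ∃ b, ∀ l, CookLevin.pushes (M.tm.m l) ≤ b := by
    have : Finite M.tm.Λ := @Finite.of_fintype _ M.tm.ΛFin
    obtain ⟨b, hb⟩ := (Set.finite_range fun l => CookLevin.pushes (M.tm.m l)).bddAbove
    exact ⟨b, fun l => hb ⟨l, rfl⟩⟩
  refine ⟨Polynomial.X + Polynomial.C b * M.time, fun a => ?_⟩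
  have o : Nonempty (TM2OutputsInTime M.tm _ _ _) := ⟨M.outputsFun a⟩
  have hl := CookLevin.output_length hb o
  simp only [List.length_map] at hl
  simpa using hl

theorem length_flatMap_le {X Y : Type} (l : List X) (f : X → List Y) (B : ℕ)
    (h : ∀ x ∈ l, (f x).length ≤ B) : (l.flatMap f).length ≤ l.length * B := by
  induction l with
  | nil => simp
  | cons x l ih =>
    rw [List.flatMap_cons, List.length_append, List.length_cons, Nat.succ_mul]
    have h1 := h x List.mem_cons_self
    have h2 := ih fun y hy => h y (List.mem_cons_of_mem _ hy)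
    omega

theorem length_num (k : ℕ) : (num k).length = k + 1 := by simp [num]

theorem length_word_le {L : List (List ℕ)} {n : ℕ} (h1 : L.length ≤ n)
    (h2 : ∀ l ∈ L, l.length ≤ n ∧ ∀ x ∈ l, x < n) : (word L).length ≤ n * (n * n + 1) := by
  unfold word
  refine (length_flatMap_le _ _ (n * n + 1) fun l hl => ?_).trans (Nat.mul_le_mul_right _ h1)
  rw [List.length_append, List.length_singleton]
  refine Nat.add_le_add_right ?_ 1
  refine (length_flatMap_le _ _ n fun x hx => ?_).trans (Nat.mul_le_mul_right _ (h2 l hl).1)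
  rw [length_num]
  exact (h2 l hl).2 x hx

theorem Graph.length_encode_le (G : Graph) : G.encode.length ≤ G.n * (G.n * G.n + 1) := by
  classical
  unfold Graph.encode
  refine length_word_le (by simp) fun l hl => ?_
  rw [List.mem_ofFn] at hl
  obtain ⟨v, rfl⟩ := hl
  constructor
  · rw [List.length_map]
    refine (List.length_filter_le _ _).trans ?_
    simp
  · intro x hx
    rw [List.mem_map] at hx
    obtain ⟨u, -, rfl⟩ := hx
    exact u.2

theorem length_le_length_word (L : List (List ℕ)) : L.length ≤ (word L).length := by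
  induction L with
  | nil => simp
  | cons l L ih =>
    have : word (l :: L) = (l.flatMap num ++ [Sym.semi]) ++ word L := rfl
    rw [this, List.length_append, List.length_append, List.length_singleton, List.length_cons]
    omega

theorem Marriage.n_le_length_encode (J : Marriage) : J.n ≤ J.encode.length := by
  rw [J.encode_eq]
  refine le_trans ?_ (length_le_length_word _)
  simp [Marriage.lists]

/-! ### The machines -/

/-- The map from graphs to roommates instances is computable in polynomial time. -/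
theorem polyTime_toRoommates (h : ∀ G : Graph, G.toRoommates.Solvable) :
    Nonempty (TM2ComputableInPolyTime Graph.encode
      (fun I : SolvableRoommates => I.1.encode) fun G => ⟨G.toRoommates, h G⟩) := by
  refine ptime_tm' (F := fun w => word (roomLists (parse w))) tr_sym_injective
    (ptime_word.comp (ptime_roomLists.comp ptime_parse)) fun G => ?_
  rw [G.encode_eq, parse_word]
  exact G.encode_toRoommates.symm

/-- The estimate is computable in polynomial time. -/
theorem polyTime_estimate : Nonempty (TM2ComputableInPolyTime Marriage.encode tally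
    fun J => estimate J.lists) := by
  refine ptime_tm' (F := fun w => tally (estimate (parse w))) tr_sym_injective
    (ptime_tally.comp (ptime_estimate.comp ptime_parse)) fun J => ?_
  rw [J.encode_eq, parse_word]

/-- **The main theorem.** If some polynomial-time map from solvable roommates instances to marriage
instances preserves the number of stable matchings, then the independence number of graphs can be
approximated within a polylogarithmic factor in polynomial time. -/
theorem main (hG : StGreedy) (hL : StLattice) (hA : StGadget) (hC : StCount)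
    (f : SolvableRoommates → Marriage) (hf : PolyTimeMap f)
    (hcard : ∀ I : SolvableRoommates, Nat.card I.1.Stable = Nat.card (f I).Stable) :
    PolylogApproximation := by
  have hs : ∀ G : Graph, G.toRoommates.Solvable := fun G => G.solvable hA
  obtain ⟨M₁⟩ := polyTime_toRoommates hs
  obtain ⟨M₂⟩ := hf
  obtain ⟨M₃⟩ := polyTime_estimate
  obtain ⟨M₄⟩ := CookLevin.polyTime_comp M₁ M₂
  obtain ⟨M₅⟩ := CookLevin.polyTime_comp M₄ M₃
  obtain ⟨P, hP⟩ := output_bound M₄
  let R : Polynomial ℕ := P.comp (Polynomial.X * (Polynomial.X * Polynomial.X + 1))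
  obtain ⟨c, hc⟩ := log_eval_le R
  refine ⟨4 * (c * c), fun G => estimate (f ⟨G.toRoommates, hs G⟩).lists, ⟨M₅⟩, ?_⟩
  intro G hn
  set J := f ⟨G.toRoommates, hs G⟩ with hJ
  obtain ⟨h1, h2⟩ := estimate_spec hG hL J
  obtain ⟨c1, c2⟩ := hC (Fin G.n) G.graph
  rw [← G.card_stable_eq hA, hcard ⟨G.toRoommates, hs G⟩, ← hJ] at c1 c2
  rw [Fintype.card_fin] at c2
  set N := Nat.card J.Stable with hN
  set α := G.graph.indepNum with hα
  have hα1 : 1 ≤ α := by
    have h3 : G.graph.IsIndepSet (({(⟨0, hn⟩ : Fin G.n)} : Finset (Fin G.n)) : Set (Fin G.n)) := by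
      simp
    simpa using h3.card_le_indepNum
  refine ⟨(Nat.pow_le_pow_iff_right (by norm_num)).1 (c1.trans h1), ?_⟩
  -- the number of men
  have hn2 : J.n ≤ R.eval G.n := by
    refine J.n_le_length_encode.trans ((hP G).trans ?_)
    simp only [R, Polynomial.eval_comp, Polynomial.eval_mul, Polynomial.eval_add,
      Polynomial.eval_X, Polynomial.eval_one]
    exact CookLevin.eval_mono P G.length_encode_le
  have h3 : Nat.log 2 (J.n * J.n + 1) + 1 ≤ c * (1 + Nat.log 2 G.n) := by
    refine le_trans ?_ (hc G.n hn)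
    refine Nat.add_le_add_right (Nat.log_mono_right ?_) 1
    exact Nat.add_le_add_right (Nat.mul_le_mul hn2 hn2) 1
  -- the logarithm of the number of stable matchings
  have h4 : G.n + 1 ≤ 2 ^ (Nat.log 2 G.n + 1) := Nat.lt_pow_succ_log_self (by norm_num) _
  have h5 : N ≤ 2 ^ ((Nat.log 2 G.n + 1) * α) := by
    refine c2.trans ?_
    rw [pow_mul]
    exact Nat.pow_le_pow_left h4 _
  have h6 : N + 1 ≤ 2 ^ ((Nat.log 2 G.n + 1) * α + 1) := by
    rw [pow_succ]
    have := Nat.one_le_two_pow (n := (Nat.log 2 G.n + 1) * α)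
    omega
  have h7 : Nat.log 2 (N + 1) ≤ 2 * ((1 + Nat.log 2 G.n) * α) := by
    have := Nat.log_mono_right (b := 2) h6
    rw [Nat.log_pow (by norm_num)] at this
    refine this.trans ?_
    have h8 : 1 ≤ (1 + Nat.log 2 G.n) * α := Nat.mul_pos (by omega) hα1
    rw [Nat.add_comm (Nat.log 2 G.n) 1]
    omega
  calc estimate J.lists
      ≤ 2 * Nat.log 2 (N + 1) * ((Nat.log 2 (J.n * J.n + 1) + 1) *
        (Nat.log 2 (J.n * J.n + 1) + 1)) := h2
    _ ≤ 2 * (2 * ((1 + Nat.log 2 G.n) * α)) * ((c * (1 + Nat.log 2 G.n)) *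
        (c * (1 + Nat.log 2 G.n))) :=
        Nat.mul_le_mul (Nat.mul_le_mul_left _ h7) (Nat.mul_le_mul h3 h3)
    _ = 4 * (c * c) * (1 + Nat.log 2 G.n) ^ 3 * α := by ring

end Pool.Agent.Lib.MP_186ff7_lc
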