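import Pool.Agent.Lib.MP_186ff7_lc.Alg

/-!
# The gadget: stable matchings of the roommates instance and independent sets
-/

namespace Pool.Agent.Lib.MP_186ff7_lc

open Classical in
/-- The matching of an independent set. -/
noncomputable def matchingOf {V : Type} (S : Finset V) (x : V × Fin 4) : V × Fin 4 :=
  if x.1 ∈ S then
    (x.1, if x.2 = 0 then 3 else if x.2 = 1 then 2 else if x.2 = 2 then 1 else 0)
  else
    (x.1, if x.2 = 0 then 2 else if x.2 = 1 then 3 else if x.2 = 2 then 0 else 1)

theorem stGadget : StGadget := by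
  classical
  intro V _ G rk h02 h0u h03 h13 h12 h21 h20 h30 h31
  symm
  have key : ∀ μ : V × Fin 4 → V × Fin 4, (∀ a, μ (μ a) = a) →
      (∀ a b, ¬ (rk a b < rk a (μ a) ∧ rk b a < rk b (μ b))) → ∀ v,
      (μ (v, 0) = (v, 2) ∧ μ (v, 1) = (v, 3) ∧ μ (v, 2) = (v, 0) ∧ μ (v, 3) = (v, 1)) ∨
      (μ (v, 0) = (v, 3) ∧ μ (v, 1) = (v, 2) ∧ μ (v, 2) = (v, 1) ∧ μ (v, 3) = (v, 0)) := by
    intro μ hinv hst v
    have sw : ∀ x y, μ x = y → μ y = x := by
      intro x y hxy
      rw [← hxy]; exact hinv x
    have h3 : μ (v, 3) = (v, 0) ∨ μ (v, 3) = (v, 1) := by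
      by_contra hcon
      push Not at hcon
      refine hst (v, 3) (v, 1) ⟨h31 v _ hcon.1 hcon.2, h13 v _ ?_⟩
      intro h
      exact hcon.2 (sw _ _ h)
    rcases h3 with h3 | h3
    · right
      have h0 := sw _ _ h3
      have h1 : μ (v, 1) = (v, 2) := by
        by_contra hcon
        refine hst (v, 1) (v, 2) ⟨h12 v _ ?_ hcon, h21 v _ ?_⟩
        · intro h
          have := sw _ _ h
          rw [h3] at this
          simp at this
        · intro h
          exact hcon (sw _ _ h)
      exact ⟨h0, h1, sw _ _ h1, h3⟩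
    · left
      have h1 := sw _ _ h3
      have h2 : μ (v, 2) = (v, 0) := by
        by_contra hcon
        refine hst (v, 2) (v, 0) ⟨h20 v _ ?_ hcon, h02 v _ ?_⟩
        · intro h
          have := sw _ _ h
          rw [h1] at this
          simp at this
        · intro h
          exact hcon (sw _ _ h)
      exact ⟨sw _ _ h2, h1, h2, h3⟩
  -- the map from independent sets to stable matchings
  have hstab : ∀ S : {S : Finset V // G.IsIndepSet S},
      (∀ a, matchingOf S.1 (matchingOf S.1 a) = a) ∧
      ∀ a b, ¬ (rk a b < rk a (matchingOf S.1 a) ∧ rk b a < rk b (matchingOf S.1 b)) := by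
    intro ⟨S, hS⟩
    have m0 : ∀ v, v ∈ S → matchingOf S (v, 0) = (v, 3) := fun v hv => by simp [matchingOf, hv]
    have m1 : ∀ v, v ∈ S → matchingOf S (v, 1) = (v, 2) := fun v hv => by simp [matchingOf, hv]
    have m2 : ∀ v, v ∈ S → matchingOf S (v, 2) = (v, 1) := fun v hv => by simp [matchingOf, hv]
    have m3 : ∀ v, v ∈ S → matchingOf S (v, 3) = (v, 0) := fun v hv => by simp [matchingOf, hv]
    have n0 : ∀ v, v ∉ S → matchingOf S (v, 0) = (v, 2) := fun v hv => by simp [matchingOf, hv]
    have n1 : ∀ v, v ∉ S → matchingOf S (v, 1) = (v, 3) := fun v hv => by simp [matchingOf, hv]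
    have n2 : ∀ v, v ∉ S → matchingOf S (v, 2) = (v, 0) := fun v hv => by simp [matchingOf, hv]
    have n3 : ∀ v, v ∉ S → matchingOf S (v, 3) = (v, 1) := fun v hv => by simp [matchingOf, hv]
    -- who is at the top
    have top : ∀ v, v ∉ S → ∀ y, ¬ rk (v, 0) y < rk (v, 0) (matchingOf S (v, 0)) := by
      intro v hv y
      rw [n0 v hv]
      by_cases hy : y = (v, 2)
      · rw [hy]; exact lt_irrefl _
      · exact not_lt.2 (h02 v y hy).le
    have top1 : ∀ v, v ∉ S → ∀ y, ¬ rk (v, 1) y < rk (v, 1) (matchingOf S (v, 1)) := by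
      intro v hv y
      rw [n1 v hv]
      by_cases hy : y = (v, 3)
      · rw [hy]; exact lt_irrefl _
      · exact not_lt.2 (h13 v y hy).le
    have top2 : ∀ v, v ∈ S → ∀ y, ¬ rk (v, 2) y < rk (v, 2) (matchingOf S (v, 2)) := by
      intro v hv y
      rw [m2 v hv]
      by_cases hy : y = (v, 1)
      · rw [hy]; exact lt_irrefl _
      · exact not_lt.2 (h21 v y hy).le
    have top3 : ∀ v, v ∈ S → ∀ y, ¬ rk (v, 3) y < rk (v, 3) (matchingOf S (v, 3)) := by
      intro v hv y
      rw [m3 v hv]
      by_cases hy : y = (v, 0)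
      · rw [hy]; exact lt_irrefl _
      · exact not_lt.2 (h30 v y hy).le
    refine ⟨?_, ?_⟩
    · rintro ⟨v, i⟩
      by_cases hv : v ∈ S
      · fin_cases i
        · show matchingOf S (matchingOf S (v, 0)) = (v, 0); rw [m0 v hv, m3 v hv]
        · show matchingOf S (matchingOf S (v, 1)) = (v, 1); rw [m1 v hv, m2 v hv]
        · show matchingOf S (matchingOf S (v, 2)) = (v, 2); rw [m2 v hv, m1 v hv]
        · show matchingOf S (matchingOf S (v, 3)) = (v, 3); rw [m3 v hv, m0 v hv]
      · fin_cases i
        · show matchingOf S (matchingOf S (v, 0)) = (v, 0); rw [n0 v hv, n2 v hv]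
        · show matchingOf S (matchingOf S (v, 1)) = (v, 1); rw [n1 v hv, n3 v hv]
        · show matchingOf S (matchingOf S (v, 2)) = (v, 2); rw [n2 v hv, n0 v hv]
        · show matchingOf S (matchingOf S (v, 3)) = (v, 3); rw [n3 v hv, n1 v hv]
    · rintro ⟨v, i⟩ b ⟨h1, h2⟩
      by_cases hv : v ∈ S
      · have cases4 : i = 0 ∨ i = 1 ∨ i = 2 ∨ i = 3 := by
          fin_cases i <;> simp
        rcases cases4 with rfl | rfl | rfl | rfl
        · rw [m0 v hv] at h1
          by_cases hb2 : b = (v, 2)
          · subst hb2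
            exact top2 v hv _ h2
          by_cases hb3 : b = (v, 3)
          · subst hb3; exact lt_irrefl _ h1
          by_cases hb : ∃ u, G.Adj v u ∧ b = (u, 0)
          · obtain ⟨u, hu, rfl⟩ := hb
            have huS : u ∉ S := by
              intro huS
              exact hS hv huS (G.ne_of_adj hu) hu
            exact top u huS _ h2
          · push Not at hb
            exact absurd h1 (not_lt.2 (h03 v b hb2 hb3 hb).le)
        · rw [m1 v hv] at h1
          by_cases hb3 : b = (v, 3)
          · subst hb3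
            exact top3 v hv _ h2
          by_cases hb2 : b = (v, 2)
          · subst hb2; exact lt_irrefl _ h1
          exact absurd h1 (not_lt.2 (h12 v b hb3 hb2).le)
        · exact top2 v hv _ h1
        · exact top3 v hv _ h1
      · have cases4 : i = 0 ∨ i = 1 ∨ i = 2 ∨ i = 3 := by
          fin_cases i <;> simp
        rcases cases4 with rfl | rfl | rfl | rfl
        · exact top v hv _ h1
        · exact top1 v hv _ h1
        · rw [n2 v hv] at h1
          by_cases hb1 : b = (v, 1)
          · subst hb1; exact top1 v hv _ h2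
          by_cases hb0 : b = (v, 0)
          · subst hb0; exact lt_irrefl _ h1
          exact absurd h1 (not_lt.2 (h20 v b hb1 hb0).le)
        · rw [n3 v hv] at h1
          by_cases hb0 : b = (v, 0)
          · subst hb0; exact top v hv _ h2
          by_cases hb1 : b = (v, 1)
          · subst hb1; exact lt_irrefl _ h1
          exact absurd h1 (not_lt.2 (h31 v b hb0 hb1).le)
  refine Nat.card_eq_of_bijective (fun S : {S : Finset V // G.IsIndepSet S} =>
    (⟨matchingOf S.1, hstab S⟩ : {μ : V × Fin 4 → V × Fin 4 // (∀ a, μ (μ a) = a) ∧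
      ∀ a b, ¬ (rk a b < rk a (μ a) ∧ rk b a < rk b (μ b))})) ⟨?_, ?_⟩
  · rintro ⟨S, hS⟩ ⟨T, hT⟩ h
    have h' : matchingOf S = matchingOf T := congrArg Subtype.val h
    apply Subtype.ext
    show S = T
    ext v
    have hv := congrFun h' (v, 0)
    by_cases h1 : v ∈ S <;> by_cases h2 : v ∈ T <;> simp_all [matchingOf]
  · rintro ⟨μ, hinv, hst⟩
    have hk := key μ hinv hst
    have hS : G.IsIndepSet ((Finset.univ.filter fun v => μ (v, 0) = (v, 3) : Finset V) : Set V) := by
      intro v hv u hu hne hadj
      have hv' : μ (v, 0) = (v, 3) := by simpa using hv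
      have hu' : μ (u, 0) = (u, 3) := by simpa using hu
      refine hst (v, 0) (u, 0) ⟨?_, ?_⟩
      · rw [hv']; exact h0u v u hadj
      · rw [hu']; exact h0u u v hadj.symm
    refine ⟨⟨Finset.univ.filter fun v => μ (v, 0) = (v, 3), hS⟩, ?_⟩
    apply Subtype.ext
    show matchingOf (Finset.univ.filter fun v => μ (v, 0) = (v, 3)) = μ
    funext ⟨v, i⟩
    have cases4 : i = 0 ∨ i = 1 ∨ i = 2 ∨ i = 3 := by
      fin_cases i <;> simp
    rcases hk v with ⟨k0, k1, k2, k3⟩ | ⟨k0, k1, k2, k3⟩
    · have hv : v ∉ (Finset.univ.filter fun v => μ (v, 0) = (v, 3) : Finset V) := by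
        simp [k0]
      rcases cases4 with rfl | rfl | rfl | rfl
      · rw [k0]; simp [matchingOf, k0]
      · rw [k1]; simp [matchingOf, k0]
      · rw [k2]; simp [matchingOf, k0]
      · rw [k3]; simp [matchingOf, k0]
    · rcases cases4 with rfl | rfl | rfl | rfl
      · rw [k0]; simp [matchingOf, k0]
      · rw [k1]; simp [matchingOf, k0]
      · rw [k2]; simp [matchingOf, k0]
      · rw [k3]; simp [matchingOf, k0]

theorem stCount : StCount := by
  classical
  intro V _ G
  constructor
  · obtain ⟨S₀, hS₀⟩ := G.exists_isNIndepSet_indepNum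
    have hind : G.IsIndepSet (S₀ : Set V) := hS₀.1
    have hle : Nat.card {T : Finset V // T ∈ S₀.powerset} ≤
        Nat.card {S : Finset V // G.IsIndepSet S} := by
      refine Nat.card_le_card_of_injective
        (fun T : {T : Finset V // T ∈ S₀.powerset} =>
          (⟨T.1, hind.mono (by exact_mod_cast Finset.mem_powerset.1 T.2)⟩ :
            {S : Finset V // G.IsIndepSet S})) ?_
      intro T T' h
      apply Subtype.ext
      exact (Subtype.mk.injEq _ _ _ _).mp h
    rw [Nat.card_eq_fintype_card, Fintype.card_coe, Finset.card_powerset, hS₀.2] at hle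
    exact hle
  · have hsurj : ∀ S : {S : Finset V // G.IsIndepSet S}, ∃ g : Fin G.indepNum → Option V,
        (Finset.univ.filter fun v => ∃ i, g i = some v) = S.1 := by
      rintro ⟨S, hS⟩
      have hcard : S.card ≤ G.indepNum := hS.card_le_indepNum
      let e := S.equivFin
      refine ⟨fun i => if h : i.1 < S.card then some (e.symm ⟨i.1, h⟩).1 else none, ?_⟩
      ext v
      simp only [Finset.mem_filter, Finset.mem_univ, true_and]
      constructor
      · rintro ⟨i, hi⟩
        by_cases h : i.1 < S.card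
        · rw [dif_pos h] at hi
          have := (e.symm ⟨i.1, h⟩).2
          rwa [Option.some.inj hi] at this
        · rw [dif_neg h] at hi
          exact absurd hi (by simp)
      · intro hv
        refine ⟨⟨(e ⟨v, hv⟩).1, lt_of_lt_of_le (e ⟨v, hv⟩).2 hcard⟩, ?_⟩
        rw [dif_pos (e ⟨v, hv⟩).2]
        simp
    choose g hg using hsurj
    have hinj : Function.Injective g := by
      intro S T h
      apply Subtype.ext
      rw [← hg S, ← hg T, h]
    have := Nat.card_le_card_of_injective g hinj
    simpa [Nat.card_eq_fintype_card] using this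

end Pool.Agent.Lib.MP_186ff7_lc
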