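import Pool.Agent.Lib.MP_186ff7_lc.Alg

/-!
# The greedy chain cover
-/

namespace Pool.Agent.Lib.MP_186ff7_lc

namespace Greedy

variable {V P : Type} [DecidableEq V] [PartialOrder P]

/-- `x` heads a chain with `k + 1` elements of `R`. -/
def H (lt : V → V → Bool) (R : List V) : ℕ → V → Prop
  | 0, x => x ∈ R
  | k + 1, x => x ∈ R ∧ ∃ y, H lt R k y ∧ lt y x = true

omit [DecidableEq V] in
lemma H_mem {lt : V → V → Bool} {R : List V} {k : ℕ} {x : V} (h : H lt R k x) : x ∈ R := by
  cases k with
  | zero => exact h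
  | succ k => exact h.1

/-- A descending chain in `R`. -/
def IsCh (φ : V → P) (R : List V) (c : List V) : Prop :=
  (∀ x ∈ c, x ∈ R) ∧ c.Pairwise (fun a b => φ b < φ a)

lemma mem_take_one {α : Type*} {l : List α} {a : α} : a ∈ l.take 1 ↔ l.head? = some a := by
  cases l with
  | nil => simp
  | cons b l => simp [eq_comm]

omit [DecidableEq V] in
lemma mem_extend {lt : V → V → Bool} {R : List V} {C : List (List V)} {d : List V} :
    d ∈ extend lt R C ↔ ∃ x ∈ R, ∃ c,
      (C.filter fun c => (c.take 1).any fun y => lt y x).head? = some c ∧ d = x :: c := by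
  unfold extend
  simp only [List.mem_flatMap, List.mem_map, mem_take_one]
  constructor
  · rintro ⟨x, hx, c, hc, rfl⟩
    exact ⟨x, hx, c, hc, rfl⟩
  · rintro ⟨x, hx, c, hc, rfl⟩
    exact ⟨x, hx, c, hc, rfl⟩

/-- The state after `j` rounds. -/
def Inv (φ : V → P) (lt : V → V → Bool) (R : List V) (j : ℕ) (C : List (List V)) : Prop :=
  ∃ l ≤ j, (∀ c ∈ C, IsCh φ R c ∧ c.length = l + 1) ∧
    (∀ x, H lt R l x ↔ ∃ c ∈ C, c.head? = some x) ∧ (l = j ∨ extend lt R C = []) ∧ C ≠ []

omit [DecidableEq V] in
lemma inv_step {φ : V → P} {lt : V → V → Bool} {R : List V} {j : ℕ} {C : List (List V)}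
    (hlt : ∀ x ∈ R, ∀ y ∈ R, (lt x y = true ↔ φ x < φ y))
    (h : Inv φ lt R j C) : Inv φ lt R (j + 1) (growStep lt R C) := by
  obtain ⟨l, hl, hC, hH, hs, hne⟩ := h
  by_cases he : extend lt R C = []
  · have : growStep lt R C = C := by simp [growStep, he]
    rw [this]
    exact ⟨l, by omega, hC, hH, Or.inr he, hne⟩
  · have hg : growStep lt R C = extend lt R C := by
      unfold growStep
      rw [if_neg]
      simpa using he
    have hlj : l = j := hs.resolve_right he
    subst hlj
    rw [hg]
    refine ⟨l + 1, le_rfl, ?_, ?_, Or.inl rfl, he⟩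
    · intro d hd
      obtain ⟨x, hx, c, hc, rfl⟩ := mem_extend.1 hd
      have hc1 := List.mem_of_mem_head? hc
      rw [List.mem_filter] at hc1
      obtain ⟨hcC, hcx⟩ := hc1
      obtain ⟨⟨hcR, hcp⟩, hlen⟩ := hC c hcC
      rw [List.any_eq_true] at hcx
      obtain ⟨y, hy, hyx⟩ := hcx
      rw [mem_take_one] at hy
      have hyc : y ∈ c := List.mem_of_mem_head? hy
      have hyx' : φ y < φ x := (hlt y (hcR y hyc) x hx).1 hyx
      refine ⟨⟨?_, ?_⟩, by simp [hlen]⟩
      · intro z hz
        rcases List.mem_cons.1 hz with rfl | hz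
        · exact hx
        · exact hcR z hz
      · rw [List.pairwise_cons]
        refine ⟨?_, hcp⟩
        intro z hz
        cases c with
        | nil => simp at hz
        | cons y' c' =>
          have hyy : y' = y := by simpa using hy
          subst hyy
          rcases List.mem_cons.1 hz with rfl | hz
          · exact hyx'
          · exact lt_trans ((List.pairwise_cons.1 hcp).1 z hz) hyx'
    · intro x
      constructor
      · rintro ⟨hx, y, hy, hyx⟩
        obtain ⟨c, hcC, hcy⟩ := (hH y).1 hy
        have hcf : c ∈ C.filter fun c => (c.take 1).any fun y => lt y x := by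
          rw [List.mem_filter]
          refine ⟨hcC, ?_⟩
          rw [List.any_eq_true]
          exact ⟨y, mem_take_one.2 hcy, hyx⟩
        obtain ⟨c', hc'⟩ : ∃ c', (C.filter fun c => (c.take 1).any fun y => lt y x).head? =
            some c' := by
          cases hf : (C.filter fun c => (c.take 1).any fun y => lt y x) with
          | nil => rw [hf] at hcf; simp at hcf
          | cons a b => exact ⟨a, by simp⟩
        exact ⟨x :: c', mem_extend.2 ⟨x, hx, c', hc', rfl⟩, by simp⟩
      · rintro ⟨d, hd, hdx⟩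
        obtain ⟨x', hx', c, hc, rfl⟩ := mem_extend.1 hd
        have hxx : x' = x := by simpa using hdx
        subst hxx
        have hc1 := List.mem_of_mem_head? hc
        rw [List.mem_filter, List.any_eq_true] at hc1
        obtain ⟨hcC, y, hy, hyx⟩ := hc1
        exact ⟨hx', y, (hH y).2 ⟨c, hcC, mem_take_one.1 hy⟩, hyx⟩

omit [DecidableEq V] in
lemma inv_iterate {φ : V → P} {lt : V → V → Bool} {R : List V}
    (hlt : ∀ x ∈ R, ∀ y ∈ R, (lt x y = true ↔ φ x < φ y)) (hR : R ≠ []) (j : ℕ) :
    Inv φ lt R j ((growStep lt R)^[j] (R.map fun x => [x])) := by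
  induction j with
  | zero =>
    refine ⟨0, le_rfl, ?_, ?_, Or.inl rfl, by simpa using hR⟩
    · intro c hc
      simp only [Function.iterate_zero, id_eq, List.mem_map] at hc
      obtain ⟨x, hx, rfl⟩ := hc
      exact ⟨⟨by simpa using hx, by simp⟩, rfl⟩
    · intro x
      simp only [Function.iterate_zero, id_eq, List.mem_map]
      constructor
      · intro hx
        exact ⟨[x], ⟨x, hx, rfl⟩, rfl⟩
      · rintro ⟨c, ⟨y, hy, rfl⟩, hc⟩
        have : y = x := by simpa using hc
        subst this
        exact hy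
  | succ j ih =>
    rw [Function.iterate_succ_apply']
    exact inv_step hlt ih

omit [DecidableEq V] in
lemma IsCh.nodup {φ : V → P} {R c : List V} (h : IsCh φ R c) : c.Nodup := by
  refine h.2.imp ?_
  intro a b hab hne
  subst hne
  exact lt_irrefl _ hab

omit [DecidableEq V] in
lemma pairwise_comparable {φ : V → P} {c : List V} (h : c.Pairwise fun a b => φ b < φ a) :
    ∀ x ∈ c, ∀ y ∈ c, φ x ≤ φ y ∨ φ y ≤ φ x := by
  induction c with
  | nil => intro x hx; simp at hx
  | cons a c ih =>
    rw [List.pairwise_cons] at h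
    intro x hx y hy
    rcases List.mem_cons.1 hx with hxa | hxc <;> rcases List.mem_cons.1 hy with hya | hyc
    · rw [hxa, hya]; exact Or.inl le_rfl
    · rw [hxa]; exact Or.inr (h.1 y hyc).le
    · rw [hya]; exact Or.inl (h.1 x hxc).le
    · exact ih h.2 x hxc y hyc

omit [DecidableEq V] in
lemma IsCh.comparable {φ : V → P} {R c : List V} (h : IsCh φ R c) :
    ∀ x ∈ c, ∀ y ∈ c, φ x ≤ φ y ∨ φ y ≤ φ x :=
  pairwise_comparable h.2

lemma longest_spec {φ : V → P} {lt : V → V → Bool} {R : List V}
    (hinj : ∀ x ∈ R, ∀ y ∈ R, φ x = φ y → x = y)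
    (hlt : ∀ x ∈ R, ∀ y ∈ R, (lt x y = true ↔ φ x < φ y)) (hR : R ≠ []) :
    IsCh φ R (longest lt R) ∧ longest lt R ≠ [] ∧
    ∀ w : ℕ, (∀ A : Finset V, (∀ x ∈ A, x ∈ R) → (∀ x ∈ A, ∀ y ∈ A, φ x ≤ φ y → x = y) →
      A.card ≤ w) → R.toFinset.card ≤ w * (longest lt R).length := by
  classical
  obtain ⟨l, hl, hC, hH, hs, hne⟩ := inv_iterate hlt hR R.length
  set C := (growStep lt R)^[R.length] (R.map fun x => [x]) with hCdef
  have hlong : longest lt R = C.headD [] := rfl
  obtain ⟨c, C', hCC⟩ := List.exists_cons_of_ne_nil hne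
  have hlc : longest lt R = c := by rw [hlong, hCC]; rfl
  have hcC : c ∈ C := by rw [hCC]; simp
  obtain ⟨hc1, hc2⟩ := hC c hcC
  rw [hlc]
  refine ⟨hc1, by intro h; rw [h] at hc2; simp at hc2, ?_⟩
  intro w hw
  have hlen : l + 1 ≤ R.length := by
    rw [← hc2]
    have h1 : c.toFinset ⊆ R.toFinset := by
      intro x hx
      rw [List.mem_toFinset] at hx ⊢
      exact hc1.1 x hx
    have h2 := Finset.card_le_card h1
    rw [List.toFinset_card_of_nodup hc1.nodup] at h2
    exact h2.trans (List.toFinset_card_le R)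
  have hex : extend lt R C = [] := hs.resolve_left (by omega)
  have hno : ∀ x, ¬ H lt R (l + 1) x := by
    rintro x ⟨hx, y, hy, hyx⟩
    obtain ⟨c', hc'C, hc'y⟩ := (hH y).1 hy
    have hcf : c' ∈ C.filter fun c => (c.take 1).any fun y => lt y x := by
      rw [List.mem_filter]
      refine ⟨hc'C, ?_⟩
      rw [List.any_eq_true]
      exact ⟨y, mem_take_one.2 hc'y, hyx⟩
    obtain ⟨c'', hc''⟩ : ∃ c', (C.filter fun c => (c.take 1).any fun y => lt y x).head? =
        some c' := by
      cases hf : (C.filter fun c => (c.take 1).any fun y => lt y x) with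
      | nil => rw [hf] at hcf; simp at hcf
      | cons a b => exact ⟨a, by simp⟩
    have : x :: c'' ∈ extend lt R C := mem_extend.2 ⟨x, hx, c'', hc'', rfl⟩
    rw [hex] at this
    simp at this
  have hrank : ∀ x ∈ R, ∃ k, k ≤ l ∧ H lt R k x ∧ ¬ H lt R (k + 1) x := by
    intro x hx
    have hx' : ∃ k, ¬ H lt R (k + 1) x := ⟨l, hno x⟩
    refine ⟨Nat.find hx', Nat.find_min' hx' (hno x), ?_, Nat.find_spec hx'⟩
    rcases Nat.eq_zero_or_pos (Nat.find hx') with h0 | h0
    · rw [h0]; exact hx
    · have := Nat.find_min hx' (m := Nat.find hx' - 1) (by omega)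
      rw [Classical.not_not] at this
      rwa [Nat.sub_add_cancel h0] at this
  choose! k hk1 hk2 hk3 using hrank
  have hcard : R.toFinset.card ≤ ∑ i ∈ Finset.range (l + 1),
      (R.toFinset.filter fun x => k x = i).card := by
    rw [← Finset.card_eq_sum_card_fiberwise]
    intro x hx
    have hx' : x ∈ R := by simpa using hx
    have := hk1 x hx'
    simp only [Finset.coe_range, Set.mem_Iio]
    omega
  refine hcard.trans ?_
  rw [hc2]
  calc ∑ i ∈ Finset.range (l + 1), (R.toFinset.filter fun x => k x = i).card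
      ≤ ∑ _i ∈ Finset.range (l + 1), w := by
        refine Finset.sum_le_sum fun i _ => ?_
        apply hw
        · intro x hx
          simpa using (Finset.mem_filter.1 hx).1
        · intro x hx y hy hxy
          rw [Finset.mem_filter, List.mem_toFinset] at hx hy
          rcases hxy.eq_or_lt with h | h
          · exact hinj x hx.1 y hy.1 h
          · exfalso
            apply hk3 y hy.1
            rw [hy.2]
            refine ⟨hy.1, x, ?_, (hlt x hx.1 y hy.1).2 h⟩
            have := hk2 x hx.1
            rwa [hx.2] at this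
    _ = w * (l + 1) := by simp [mul_comm]

lemma strip_nil (lt : V → V → Bool) (s : List V × ℕ) (h : s.1 = []) : strip lt s = s := by
  simp [strip, h]

lemma strip_cons (lt : V → V → Bool) (s : List V × ℕ) (h : s.1 ≠ []) :
    strip lt s = (s.1.filter fun x => !((longest lt s.1).any fun y => decide (y = x)),
      s.2 + 1) := by
  unfold strip
  rw [if_neg]
  simpa using h

lemma mem_strip {lt : V → V → Bool} {s : List V × ℕ} (h : s.1 ≠ []) {x : V} :
    x ∈ (strip lt s).1 ↔ x ∈ s.1 ∧ x ∉ longest lt s.1 := by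
  rw [strip_cons lt s h]
  simp only [List.mem_filter, Bool.not_eq_true', List.any_eq_false, decide_eq_true_eq]
  constructor
  · rintro ⟨h1, h2⟩
    exact ⟨h1, fun h3 => h2 x h3 rfl⟩
  · rintro ⟨h1, h2⟩
    exact ⟨h1, fun y hy hyx => h2 (hyx ▸ hy)⟩

/-- All invariants of the greedy algorithm. -/
structure State (φ : V → P) (Q : List V) (t : ℕ) (s : List V × ℕ) : Prop where
  sub : ∀ x ∈ s.1, x ∈ Q
  len : s.1 = [] ∨ s.1.length + t ≤ Q.length
  cover : ∃ C : Fin s.2 → Finset V, (∀ j, ∀ x ∈ C j, ∀ y ∈ C j, φ x ≤ φ y ∨ φ y ≤ φ x) ∧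
    ∀ x ∈ Q, x ∈ s.1 ∨ ∃ j, x ∈ C j
  bound : ∀ w : ℕ, (∀ A : Finset V, (∀ x ∈ A, x ∈ Q) → (∀ x ∈ A, ∀ y ∈ A, φ x ≤ φ y → x = y) →
    A.card ≤ w) → s.1.toFinset.card * w ^ s.2 ≤ Q.toFinset.card * (w - 1) ^ s.2 ∧
      (s.2 = 0 ∨ w ^ (s.2 - 1) ≤ Q.toFinset.card * (w - 1) ^ (s.2 - 1))

lemma state_iterate {φ : V → P} {lt : V → V → Bool} {Q : List V}
    (hinj : ∀ x ∈ Q, ∀ y ∈ Q, φ x = φ y → x = y)
    (hlt : ∀ x ∈ Q, ∀ y ∈ Q, (lt x y = true ↔ φ x < φ y)) (t : ℕ) :
    State φ Q t ((strip lt)^[t] (Q, 0)) := by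
  induction t with
  | zero =>
    refine ⟨fun x hx => hx, Or.inr le_rfl, ⟨fun j => ∅, fun j => j.elim0, fun x hx => Or.inl hx⟩, ?_⟩
    intro w _
    simp
  | succ t ih =>
    rw [Function.iterate_succ_apply']
    set s := (strip lt)^[t] (Q, 0) with hs
    by_cases he : s.1 = []
    · rw [strip_nil lt s he]
      exact ⟨ih.sub, Or.inl he, ih.cover, ih.bound⟩
    · obtain ⟨hch, hcne, hmir⟩ := longest_spec (φ := φ) (lt := lt) (R := s.1)
        (fun x hx y hy => hinj x (ih.sub x hx) y (ih.sub y hy))
        (fun x hx y hy => hlt x (ih.sub x hx) y (ih.sub y hy)) he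
      have h2 : (strip lt s).2 = s.2 + 1 := by rw [strip_cons lt s he]
      refine ⟨?_, ?_, ?_, ?_⟩
      · intro x hx
        exact ih.sub x ((mem_strip he).1 hx).1
      · right
        have h3 := ih.len.resolve_left he
        obtain ⟨y, hy⟩ := List.exists_mem_of_ne_nil _ hcne
        have h4 : (strip lt s).1.length < s.1.length := by
          rw [strip_cons lt s he]
          apply List.length_filter_lt_length_iff_exists.2
          refine ⟨y, hch.1 y hy, ?_⟩
          simp only [Bool.not_eq_true', Bool.not_eq_false]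
          rw [List.any_eq_true]
          exact ⟨y, hy, by simp⟩
        omega
      · obtain ⟨C, hC1, hC2⟩ := ih.cover
        have key : ∃ C : Fin (s.2 + 1) → Finset V,
            (∀ j, ∀ x ∈ C j, ∀ y ∈ C j, φ x ≤ φ y ∨ φ y ≤ φ x) ∧
            ∀ x ∈ Q, x ∈ (strip lt s).1 ∨ ∃ j, x ∈ C j := by
          refine ⟨Fin.cons (longest lt s.1).toFinset C, ?_, ?_⟩
          · intro j
            refine Fin.cases ?_ ?_ j
            · intro x hx y hy
              simp only [Fin.cons_zero, List.mem_toFinset] at hx hy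
              exact hch.comparable x hx y hy
            · intro j x hx y hy
              simp only [Fin.cons_succ] at hx hy
              exact hC1 j x hx y hy
          · intro x hx
            rcases hC2 x hx with h | ⟨j, hj⟩
            · by_cases hx2 : x ∈ longest lt s.1
              · exact Or.inr ⟨0, by simpa using hx2⟩
              · exact Or.inl ((mem_strip he).2 ⟨h, hx2⟩)
            · exact Or.inr ⟨j.succ, by simpa using hj⟩
        rw [h2]
        exact key
      · intro w hw
        obtain ⟨hb1, _⟩ := ih.bound w hw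
        have hm : s.1.toFinset.card ≤ w * (longest lt s.1).length :=
          hmir w fun A hA1 hA2 => hw A (fun x hx => ih.sub x (hA1 x hx)) hA2
        have hpos : 1 ≤ s.1.toFinset.card := by
          rw [Nat.one_le_iff_ne_zero, Ne, Finset.card_eq_zero, List.toFinset_eq_empty_iff]
          exact he
        have hcard : (strip lt s).1.toFinset.card + (longest lt s.1).length =
            s.1.toFinset.card := by
          rw [← List.toFinset_card_of_nodup hch.nodup, ← Finset.card_union_of_disjoint]
          · congr 1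
            ext x
            simp only [Finset.mem_union, List.mem_toFinset, mem_strip he]
            constructor
            · rintro (h | h)
              · exact h.1
              · exact hch.1 x h
            · intro h
              by_cases hx2 : x ∈ longest lt s.1
              · exact Or.inr hx2
              · exact Or.inl ⟨h, hx2⟩
          · rw [Finset.disjoint_left]
            intro x hx hx2
            rw [List.mem_toFinset] at hx hx2
            exact ((mem_strip he).1 hx).2 hx2
        have hw1 : 1 ≤ w := by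
          rcases Nat.eq_zero_or_pos w with h | h
          · rw [h, Nat.zero_mul] at hm; omega
          · exact h
        have hstep : (strip lt s).1.toFinset.card * w ≤ s.1.toFinset.card * (w - 1) := by
          obtain ⟨v, rfl⟩ : ∃ v, w = v + 1 := ⟨w - 1, by omega⟩
          rw [Nat.add_sub_cancel]
          nlinarith
        rw [h2]
        constructor
        · calc (strip lt s).1.toFinset.card * w ^ (s.2 + 1)
              = ((strip lt s).1.toFinset.card * w) * w ^ s.2 := by ring
            _ ≤ (s.1.toFinset.card * (w - 1)) * w ^ s.2 := Nat.mul_le_mul_right _ hstep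
            _ = (s.1.toFinset.card * w ^ s.2) * (w - 1) := by ring
            _ ≤ (Q.toFinset.card * (w - 1) ^ s.2) * (w - 1) := Nat.mul_le_mul_right _ hb1
            _ = Q.toFinset.card * (w - 1) ^ (s.2 + 1) := by ring
        · right
          rw [Nat.add_sub_cancel]
          calc w ^ s.2 = 1 * w ^ s.2 := (Nat.one_mul _).symm
            _ ≤ s.1.toFinset.card * w ^ s.2 := Nat.mul_le_mul_right _ hpos
            _ ≤ _ := hb1

/-- Bernoulli. -/
lemma two_mul_pow_le (v : ℕ) (hv : 1 ≤ v) : 2 * v ^ (v + 1) ≤ (v + 1) ^ (v + 1) := by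
  have h := one_add_mul_le_pow (R := ℝ) (a := 1 / v) (by
    have : (0 : ℝ) ≤ 1 / v := by positivity
    linarith) (v + 1)
  have hv0 : (0 : ℝ) < v := by exact_mod_cast hv
  have h1 : (2 : ℝ) ≤ (1 + 1 / (v : ℝ)) ^ (v + 1) := by
    refine le_trans ?_ h
    push_cast
    have : (1 : ℝ) ≤ (v + 1) * (1 / v) := by
      rw [mul_one_div, le_div_iff₀ hv0]; linarith
    linarith
  have h2 : (1 + 1 / (v : ℝ)) ^ (v + 1) * (v : ℝ) ^ (v + 1) = ((v : ℝ) + 1) ^ (v + 1) := by
    rw [← mul_pow]
    congr 1
    field_simp
  have h3 : (2 : ℝ) * (v : ℝ) ^ (v + 1) ≤ ((v : ℝ) + 1) ^ (v + 1) := by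
    rw [← h2]
    exact mul_le_mul_of_nonneg_right h1 (by positivity)
  exact_mod_cast h3

end Greedy

open Greedy

theorem stGreedy : StGreedy := by
  intro V P _ _ lt φ Q hinj hlt
  have hst := state_iterate hinj hlt Q.length
  set s := (strip lt)^[Q.length] (Q, 0) with hs
  have hg : greedy lt Q = s.2 := rfl
  have hnil : s.1 = [] := by
    rcases hst.len with h | h
    · exact h
    · have : s.1.length = 0 := by omega
      exact List.length_eq_zero_iff.1 this
  refine ⟨?_, ?_⟩
  · obtain ⟨C, hC1, hC2⟩ := hst.cover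
    refine ⟨C, hC1, ?_⟩
    intro x hx
    rcases hC2 x hx with h | h
    · rw [hnil] at h; simp at h
    · exact h
  · intro w hw
    obtain ⟨_, hb⟩ := hst.bound w hw
    rw [hg]
    rcases hb with h0 | hb
    · omega
    · by_contra hcon
      push Not at hcon
      set L := Nat.log 2 Q.length with hL
      have hM : Q.toFinset.card < 2 ^ (L + 1) :=
        lt_of_le_of_lt (List.toFinset_card_le Q) (Nat.lt_pow_succ_log_self (by norm_num) _)
      rcases Nat.eq_zero_or_pos w with rfl | hwpos
      · -- then `Q` is empty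
        have hQ : Q = [] := by
          by_contra hne
          obtain ⟨x, hx⟩ := List.exists_mem_of_ne_nil _ hne
          have := hw {x} (by simpa using hx) (by simp)
          simp at this
        rw [hs, hQ] at hcon
        simp at hcon
      · obtain ⟨v, rfl⟩ : ∃ v, w = v + 1 := ⟨w - 1, by omega⟩
        rw [Nat.add_sub_cancel] at hb
        set r := s.2 - 1 with hr
        have hr1 : (v + 1) * (L + 1) ≤ r := by
          have : (v + 1) * (L + 1) + 1 ≤ s.2 := by nlinarith
          omega
        rcases Nat.eq_zero_or_pos v with rfl | hvpos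
        · have hr0 : r ≠ 0 := by
            intro h
            rw [h] at hr1
            simp at hr1
          rw [Nat.zero_pow (Nat.pos_of_ne_zero hr0)] at hb
          simp at hb
        · -- monotonicity in the exponent
          obtain ⟨e, he⟩ : ∃ e, r = (v + 1) * (L + 1) + e := ⟨r - (v + 1) * (L + 1), by omega⟩
          have h1 : (2 * v ^ (v + 1)) ^ (L + 1) * v ^ e ≤ (v + 1) ^ r := by
            rw [he, pow_add (v + 1), pow_mul (v + 1)]
            exact Nat.mul_le_mul (Nat.pow_le_pow_left (two_mul_pow_le v hvpos) _)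
              (Nat.pow_le_pow_left (Nat.le_succ v) _)
          have h2 : (2 * v ^ (v + 1)) ^ (L + 1) * v ^ e = 2 ^ (L + 1) * v ^ r := by
            rw [he, mul_pow, pow_add v ((v + 1) * (L + 1)), ← pow_mul, mul_assoc]
          rw [h2] at h1
          have h3 : 2 ^ (L + 1) * v ^ r ≤ Q.toFinset.card * v ^ r := h1.trans hb
          have h4 : 2 ^ (L + 1) ≤ Q.toFinset.card :=
            Nat.le_of_mul_le_mul_right h3 (Nat.pow_pos hvpos)
          omega

end Pool.Agent.Lib.MP_186ff7_lc
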