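import Pool.Agent.Lib.MP_186ff7_lc.Alg

/-!
# The lattice of stable marriages
-/

namespace Pool.Agent.Lib.MP_186ff7_lc

namespace Lat

variable {n : ℕ} {rM rW : Fin n → Fin n → ℕ}

theorem le_moveF (p : Fin n → ℕ) : p ≤ moveF rM rW p := by
  intro a
  simp only [moveF]
  split_ifs <;> omega

theorem moveF_le_fix {p v : Fin n → ℕ} (hv : moveF rM rW v = v) (h : p ≤ v) :
    moveF rM rW p ≤ v := by
  intro a
  simp only [moveF]
  split_ifs with hc
  · rcases (h a).lt_or_eq with h1 | h1
    · exact h1
    · exfalso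
      obtain ⟨b, w, h2, h3, h4⟩ := hc
      have h5 := congrFun hv a
      unfold moveF at h5
      rw [if_pos ⟨b, w, h2.trans h1, h3.trans (h b), h4⟩] at h5
      omega
  · exact h a

theorem iter_le_fix {p v : Fin n → ℕ} (hv : moveF rM rW v = v) (h : p ≤ v) (k : ℕ) :
    (moveF rM rW)^[k] p ≤ v := by
  induction k with
  | zero => exact h
  | succ k ih =>
    rw [Function.iterate_succ_apply']
    exact moveF_le_fix hv ih

theorem le_iter (p : Fin n → ℕ) (k : ℕ) : p ≤ (moveF rM rW)^[k] p := by
  induction k with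
  | zero => exact le_rfl
  | succ k ih =>
    rw [Function.iterate_succ_apply']
    exact ih.trans (le_moveF _)

theorem iter_fix (p : Fin n → ℕ) (hq : ∀ b, (moveF rM rW)^[n * n] p b < n) :
    moveF rM rW ((moveF rM rW)^[n * n] p) = (moveF rM rW)^[n * n] p := by
  by_contra hne
  have hnf : ∀ k ≤ n * n, moveF rM rW ((moveF rM rW)^[k] p) ≠ (moveF rM rW)^[k] p := by
    intro k hk h
    obtain ⟨j, hj⟩ := Nat.exists_eq_add_of_le' hk
    apply hne
    rw [hj, Function.iterate_add_apply, Function.iterate_fixed h, h]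
  have hsum : ∀ k ≤ n * n, k ≤ ∑ b, (moveF rM rW)^[k] p b := by
    intro k
    induction k with
    | zero => intro _; exact Nat.zero_le _
    | succ k ih =>
      intro hk
      have h1 := ih (by omega)
      have h2 : ∑ b, (moveF rM rW)^[k] p b < ∑ b, (moveF rM rW)^[k + 1] p b := by
        rw [Function.iterate_succ_apply']
        have h3 := hnf k (by omega)
        have h4 : ∃ a, (moveF rM rW)^[k] p a < moveF rM rW ((moveF rM rW)^[k] p) a := by
          by_contra h5
          push Not at h5
          exact h3 (le_antisymm h5 (le_moveF _))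
        obtain ⟨a, ha⟩ := h4
        exact Finset.sum_lt_sum (fun b _ => le_moveF _ b) ⟨a, Finset.mem_univ a, ha⟩
      omega
  rcases Nat.eq_zero_or_pos n with h0 | h0
  · subst h0
    exact hne (Subsingleton.elim _ _)
  · have h1 := hsum (n * n) le_rfl
    have h2 : ∑ b, (moveF rM rW)^[n * n] p b < ∑ _b : Fin n, n := by
      have : Nonempty (Fin n) := ⟨⟨0, h0⟩⟩
      exact Finset.sum_lt_sum_of_nonempty Finset.univ_nonempty fun b _ => hq b
    rw [Finset.sum_const, Finset.card_univ, Fintype.card_fin, smul_eq_mul] at h2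
    omega

/-- the rank vector of a permutation -/
def vec (rM : Fin n → Fin n → ℕ) (σ : Equiv.Perm (Fin n)) : Fin n → ℕ := fun a => rM a (σ a)

theorem vec_fix (hM : ∀ a, Function.Injective (rM a)) {σ : Equiv.Perm (Fin n)}
    (hσ : StablePerm rM rW σ) : moveF rM rW (vec rM σ) = vec rM σ := by
  funext a
  unfold moveF
  rw [if_neg]
  rintro ⟨b, w, h1, h2, h3⟩
  have h4 : w = σ a := hM a h1
  subst h4
  have h5 : rM b (σ a) < rM b (σ b) := by
    rcases h2.lt_or_eq with h6 | h6
    · exact h6
    · have h7 : σ a = σ b := hM b h6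
      have h8 : a = b := σ.injective h7
      subst h8
      exact absurd h3 (lt_irrefl _)
  apply hσ b (σ a)
  refine ⟨h5, ?_⟩
  rw [Equiv.symm_apply_apply]
  exact h3

theorem vec_injective (hM : ∀ a, Function.Injective (rM a)) : Function.Injective (vec rM) := by
  intro σ τ h
  ext a
  have := hM a (congrFun h a)
  rw [this]

theorem exists_perm (hM : ∀ a, Function.Injective (rM a)) (hlt : ∀ a w, rM a w < n)
    (hW : ∀ w, Function.Injective (rW w)) {q : Fin n → ℕ} (hq : ∀ b, q b < n)
    (hfix : moveF rM rW q = q) : ∃ σ : Equiv.Perm (Fin n), StablePerm rM rW σ ∧ vec rM σ = q := by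
  have hsur : ∀ a, ∃ w, rM a w = q a := by
    intro a
    have h1 : Function.Injective (fun w => (⟨rM a w, hlt a w⟩ : Fin n)) := by
      intro w w' h
      exact hM a (by simpa using congrArg Fin.val h)
    obtain ⟨w, hw⟩ := (Finite.injective_iff_surjective.1 h1) ⟨q a, hq a⟩
    exact ⟨w, by simpa using congrArg Fin.val hw⟩
  choose f hf using hsur
  have hmove : ∀ a b w, rM a w = q a → rM b w ≤ q b → ¬ rW w b < rW w a := by
    intro a b w h1 h2 h3
    have h4 := congrFun hfix a
    unfold moveF at h4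
    rw [if_pos ⟨b, w, h1, h2, h3⟩] at h4
    omega
  have hinj : Function.Injective f := by
    intro a b h
    by_contra hab
    have h1 : rW (f a) a ≠ rW (f a) b := fun h2 => hab (hW _ h2)
    rcases lt_or_gt_of_ne h1 with h2 | h2
    · exact hmove b a (f a) (by rw [h]; exact hf b) (hf a).le h2
    · exact hmove a b (f a) (hf a) (by rw [h]; exact (hf b).le) h2
  refine ⟨Equiv.ofBijective f (Finite.injective_iff_bijective.1 hinj), ?_, ?_⟩
  · intro a w h
    obtain ⟨h1, h2⟩ := h
    obtain ⟨c, hc⟩ : ∃ c, c = (Equiv.ofBijective f (Finite.injective_iff_bijective.1 hinj)).symm w :=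
      ⟨_, rfl⟩
    have hc' : f c = w := by
      have : (Equiv.ofBijective f (Finite.injective_iff_bijective.1 hinj)) c = w := by
        rw [hc, Equiv.apply_symm_apply]
      exact this
    rw [← hc] at h2
    have h3 : rM a w ≤ q a := by
      have : rM a (Equiv.ofBijective f (Finite.injective_iff_bijective.1 hinj) a) = q a := hf a
      omega
    exact hmove c a w (by rw [← hc']; exact hf c) h3 h2
  · funext a
    exact hf a

/-- The lemma of Knuth: if `a` prefers `τ a` to `σ a` then `σ a` prefers `a` to her husband in `τ`. -/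
theorem knuth (hM : ∀ a, Function.Injective (rM a)) (hW : ∀ w, Function.Injective (rW w))
    {σ τ : Equiv.Perm (Fin n)} (hσ : StablePerm rM rW σ) (hτ : StablePerm rM rW τ) (a : Fin n)
    (h : vec rM τ a < vec rM σ a) : rW (σ a) a < rW (σ a) (τ.symm (σ a)) := by
  classical
  set P := Finset.univ.filter (fun a => vec rM τ a < vec rM σ a) with hP
  set W := Finset.univ.filter (fun w => rW w (σ.symm w) < rW w (τ.symm w)) with hWW
  have h1 : P.image τ ⊆ W := by
    intro w hw
    obtain ⟨b, hb, rfl⟩ := Finset.mem_image.1 hw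
    rw [hP, Finset.mem_filter] at hb
    have hb2 : rM b (τ b) < rM b (σ b) := hb.2
    rw [hWW, Finset.mem_filter]
    refine ⟨Finset.mem_univ _, ?_⟩
    rw [Equiv.symm_apply_apply]
    by_contra h2
    push Not at h2
    rcases h2.lt_or_eq with h3 | h3
    · exact hσ b (τ b) ⟨hb2, h3⟩
    · have h4 := hW _ h3
      have h5 : σ b = τ b := (Equiv.eq_symm_apply σ).1 h4
      rw [h5] at hb2
      exact lt_irrefl _ hb2
  have h2 : W.image σ.symm ⊆ P := by
    intro b hb
    obtain ⟨w, hw, rfl⟩ := Finset.mem_image.1 hb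
    rw [hWW, Finset.mem_filter] at hw
    have hw2 := hw.2
    rw [hP, Finset.mem_filter]
    refine ⟨Finset.mem_univ _, ?_⟩
    show rM (σ.symm w) (τ (σ.symm w)) < rM (σ.symm w) (σ (σ.symm w))
    rw [Equiv.apply_symm_apply]
    by_contra h3
    push Not at h3
    rcases h3.lt_or_eq with h4 | h4
    · exact hτ (σ.symm w) w ⟨h4, hw2⟩
    · have h5 := hM _ h4
      have h6 : τ.symm w = σ.symm w := by
        rw [Equiv.symm_apply_eq]
        exact h5
      rw [h6] at hw2
      exact lt_irrefl _ hw2
  have c1 : P.card ≤ W.card := by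
    rw [← Finset.card_image_of_injective P τ.injective]
    exact Finset.card_le_card h1
  have h3 : W.image σ.symm = P := by
    apply Finset.eq_of_subset_of_card_le h2
    rw [Finset.card_image_of_injective W σ.symm.injective]
    exact c1
  have h4 : a ∈ W.image σ.symm := by
    rw [h3, hP, Finset.mem_filter]
    exact ⟨Finset.mem_univ _, h⟩
  obtain ⟨w, hw, hwa⟩ := Finset.mem_image.1 h4
  have h5 : w = σ a := by rw [← hwa, Equiv.apply_symm_apply]
  rw [hWW, Finset.mem_filter] at hw
  have h6 := hw.2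
  rw [h5, Equiv.symm_apply_apply] at h6
  exact h6

/-- The supremum of two stable vectors has no moves at the men where the first one is larger. -/
theorem sup_aux (hM : ∀ a, Function.Injective (rM a)) (hW : ∀ w, Function.Injective (rW w))
    {σ τ : Equiv.Perm (Fin n)} (hσ : StablePerm rM rW σ) (hτ : StablePerm rM rW τ) (a : Fin n)
    (h : vec rM τ a ≤ vec rM σ a) (b w : Fin n) (h1 : rM a w = vec rM σ a)
    (h2 : rM b w ≤ (vec rM σ ⊔ vec rM τ) b) (h3 : rW w b < rW w a) : False := by
  have hw : w = σ a := hM a h1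
  subst hw
  rw [Pi.sup_apply] at h2
  rcases le_total (vec rM τ b) (vec rM σ b) with h4 | h4
  · rw [sup_eq_left.2 h4] at h2
    have h5 := congrFun (vec_fix hM hσ) a
    unfold moveF at h5
    rw [if_pos ⟨b, σ a, h1, h2, h3⟩] at h5
    omega
  · rw [sup_eq_right.2 h4] at h2
    -- `σ a` weakly prefers `a` to her husband in `τ`
    have h5 : rW (σ a) a ≤ rW (σ a) (τ.symm (σ a)) := by
      rcases h.lt_or_eq with h6 | h6
      · exact (knuth hM hW hσ hτ a h6).le
      · have h7 : τ a = σ a := hM a h6
        rw [← h7, Equiv.symm_apply_apply]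
    have h6 : rM b (σ a) < rM b (τ b) := by
      rcases h2.lt_or_eq with h7 | h7
      · exact h7
      · have h8 : σ a = τ b := hM b h7
        rw [h8, Equiv.symm_apply_apply] at h5
        rw [h8] at h3
        omega
    exact hτ b (σ a) ⟨h6, h3.trans_le h5⟩

theorem sup_stable (hM : ∀ a, Function.Injective (rM a)) (hlt : ∀ a w, rM a w < n)
    (hW : ∀ w, Function.Injective (rW w)) {σ τ : Equiv.Perm (Fin n)} (hσ : StablePerm rM rW σ)
    (hτ : StablePerm rM rW τ) :
    ∃ ρ : Equiv.Perm (Fin n), StablePerm rM rW ρ ∧ vec rM ρ = vec rM σ ⊔ vec rM τ := by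
  apply exists_perm hM hlt hW
  · intro b
    rw [Pi.sup_apply]
    exact max_lt (hlt _ _) (hlt _ _)
  · funext a
    unfold moveF
    rw [if_neg]
    rintro ⟨b, w, h1, h2, h3⟩
    rcases le_total (vec rM τ a) (vec rM σ a) with h4 | h4
    · rw [Pi.sup_apply, sup_eq_left.2 h4] at h1
      exact sup_aux hM hW hσ hτ a h4 b w h1 h2 h3
    · rw [Pi.sup_apply, sup_eq_right.2 h4] at h1
      rw [sup_comm] at h2
      exact sup_aux hM hW hτ hσ a h4 b w h1 h2 h3

theorem leastF_le {v : Fin n → ℕ} (hv : moveF rM rW v = v) (a : Fin n) (i : ℕ) (h : i ≤ v a) :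
    leastF rM rW a i ≤ v := by
  unfold leastF
  apply iter_le_fix hv
  intro b
  show (if b = a then i else 0) ≤ v b
  split_ifs with hb
  · rw [hb]; exact h
  · exact Nat.zero_le _

theorem le_leastF (a : Fin n) (i : ℕ) : i ≤ leastF rM rW a i a := by
  have h := le_iter (rM := rM) (rW := rW) (fun b => if b = a then i else 0) (n * n) a
  simp only [if_true] at h
  exact h

end Lat

open Pool.Agent.Lib.MP_186ff7_lc.Lat in
theorem stLattice : StLattice := by
  classical
  intro n rM rW hM hlt hW Q hQ
  have hQst : ∀ q ∈ Q, ∃ σ : Equiv.Perm (Fin n), StablePerm rM rW σ ∧ vec rM σ = q := by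
    intro q hq
    obtain ⟨a, i, -, h2, h3⟩ := (hQ q).1 hq
    apply exists_perm hM hlt hW h3
    rw [← h2]
    apply iter_fix
    intro b
    have := h3 b
    rw [← h2] at this
    exact this
  have hmemQ : ∀ σ : Equiv.Perm (Fin n), StablePerm rM rW σ → ∀ a,
      leastF rM rW a (vec rM σ a) ∈ Q ∧ leastF rM rW a (vec rM σ a) ≤ vec rM σ := by
    intro σ hσ a
    have h1 := leastF_le (vec_fix hM hσ) a (vec rM σ a) le_rfl
    refine ⟨(hQ _).2 ⟨a, vec rM σ a, hlt _ _, rfl, fun b => (h1 b).trans_lt (hlt _ _)⟩, h1⟩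
  refine ⟨?_, ?_⟩
  · intro k C hC hcov
    -- the invariant of a stable matching
    let g : {σ : Equiv.Perm (Fin n) // StablePerm rM rW σ} → Fin k → Fin (Q.card + 1) :=
      fun σ j => ⟨(Q.filter (fun q => q ≤ vec rM σ.1 ∧ q ∈ C j)).card,
        Nat.lt_succ_of_le (Finset.card_le_card (Finset.filter_subset _ _))⟩
    have hle : ∀ σ τ : {σ : Equiv.Perm (Fin n) // StablePerm rM rW σ}, g σ = g τ →
        vec rM σ.1 ≤ vec rM τ.1 := by
      intro σ τ hg a
      obtain ⟨h1, h2⟩ := hmemQ σ.1 σ.2 a
      obtain ⟨j, hj⟩ := hcov _ h1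
      have h3 : (Q.filter (fun q => q ≤ vec rM σ.1 ∧ q ∈ C j)).card =
          (Q.filter (fun q => q ≤ vec rM τ.1 ∧ q ∈ C j)).card := by
        have := congrArg Fin.val (congrFun hg j)
        exact this
      have h4 : Q.filter (fun q => q ≤ vec rM σ.1 ∧ q ∈ C j) =
          Q.filter (fun q => q ≤ vec rM τ.1 ∧ q ∈ C j) := by
        by_cases h5 : Q.filter (fun q => q ≤ vec rM σ.1 ∧ q ∈ C j) ⊆
            Q.filter (fun q => q ≤ vec rM τ.1 ∧ q ∈ C j)
        · exact Finset.eq_of_subset_of_card_le h5 h3.ge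
        · obtain ⟨x, hx1, hx2⟩ := Finset.not_subset.1 h5
          symm
          apply Finset.eq_of_subset_of_card_le _ h3.le
          intro y hy
          rw [Finset.mem_filter] at hx1 hy ⊢
          refine ⟨hy.1, ?_, hy.2.2⟩
          rcases hC j x hx1.2.2 y hy.2.2 with h6 | h6
          · exact absurd (Finset.mem_filter.2 ⟨hx1.1, h6.trans hy.2.1, hx1.2.2⟩) hx2
          · exact h6.trans hx1.2.1
      have h5 : leastF rM rW a (vec rM σ.1 a) ∈
          Q.filter (fun q => q ≤ vec rM τ.1 ∧ q ∈ C j) := by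
        rw [← h4]
        exact Finset.mem_filter.2 ⟨h1, h2, hj⟩
      exact (le_leastF a _).trans ((Finset.mem_filter.1 h5).2.1 a)
    have hg : Function.Injective g := by
      intro σ τ h
      apply Subtype.ext
      apply vec_injective hM
      exact le_antisymm (hle σ τ h) (hle τ σ h.symm)
    have h1 := Nat.card_le_card_of_injective g hg
    rwa [Nat.card_eq_fintype_card (α := Fin k → Fin (Q.card + 1)), Fintype.card_fun,
      Fintype.card_fin, Fintype.card_fin] at h1
  · intro A hA hanti
    have hsup : ∀ T : Finset (Fin n → ℕ), ∀ hT : T.Nonempty, T ⊆ A →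
        ∃ σ : Equiv.Perm (Fin n), StablePerm rM rW σ ∧ vec rM σ = T.sup' hT id := by
      intro T hT hTA
      apply Finset.sup'_induction hT id (p := fun v => ∃ σ : Equiv.Perm (Fin n),
        StablePerm rM rW σ ∧ vec rM σ = v)
      · rintro _ ⟨σ, hσ, rfl⟩ _ ⟨τ, hτ, rfl⟩
        exact sup_stable hM hlt hW hσ hτ
      · intro q hq
        exact hQst q (hA (hTA hq))
    have hback : ∀ T : Finset (Fin n → ℕ), ∀ hT : T.Nonempty, T ⊆ A → ∀ x ∈ A,
        x ≤ T.sup' hT id → x ∈ T := by
      intro T hT hTA x hx hle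
      obtain ⟨a, i, -, h2, -⟩ := (hQ x).1 (hA hx)
      have h3 : i ≤ (T.sup' hT id) a := by
        refine le_trans ?_ (hle a)
        rw [← h2]
        exact le_leastF a i
      rw [Finset.sup'_apply, Finset.le_sup'_iff] at h3
      obtain ⟨t, ht, h4⟩ := h3
      obtain ⟨σ, hσ, hσt⟩ := hQst t (hA (hTA ht))
      have h5 : x ≤ t := by
        rw [← h2, ← hσt]
        apply leastF_le (vec_fix hM hσ)
        rw [hσt]
        exact h4
      rw [hanti x hx t (hTA ht) h5]
      exact ht
    choose f hf using hsup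
    let g : {T // T ∈ A.powerset.erase ∅} → {σ : Equiv.Perm (Fin n) // StablePerm rM rW σ} :=
      fun T => ⟨f T.1 (Finset.nonempty_iff_ne_empty.2 (Finset.mem_erase.1 T.2).1)
        (Finset.mem_powerset.1 (Finset.mem_erase.1 T.2).2), (hf _ _ _).1⟩
    have hg : Function.Injective g := by
      intro T T' h
      have hT := Finset.nonempty_iff_ne_empty.2 (Finset.mem_erase.1 T.2).1
      have hT' := Finset.nonempty_iff_ne_empty.2 (Finset.mem_erase.1 T'.2).1
      have hTA := Finset.mem_powerset.1 (Finset.mem_erase.1 T.2).2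
      have hTA' := Finset.mem_powerset.1 (Finset.mem_erase.1 T'.2).2
      have h1 : T.1.sup' hT id = T'.1.sup' hT' id := by
        rw [← (hf T.1 hT hTA).2, ← (hf T'.1 hT' hTA').2]
        exact congrArg (fun s => vec rM s.1) h
      apply Subtype.ext
      apply Finset.Subset.antisymm
      · intro x hx
        apply hback T'.1 hT' hTA' x (hTA hx)
        rw [← h1]
        exact Finset.le_sup' (f := id) hx
      · intro x hx
        apply hback T.1 hT hTA x (hTA' hx)
        rw [h1]
        exact Finset.le_sup' (f := id) hx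
    have h1 := Nat.card_le_card_of_injective g hg
    have h2 : Nat.card {T // T ∈ A.powerset.erase ∅} = 2 ^ A.card - 1 := by
      rw [Nat.card_eq_fintype_card, Fintype.card_coe,
        Finset.card_erase_of_mem (Finset.mem_powerset.2 (Finset.empty_subset _)),
        Finset.card_powerset]
    rw [h2] at h1
    omega

end Pool.Agent.Lib.MP_186ff7_lc
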